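import Mathlib
import Pool.Agent.PPS.Bits
import Pool.Agent.H64.Cook.PTX

/-!
# Binary arithmetic in polynomial time
-/

namespace Pool.Agent.H80.ENC

open Pool.Agent.PPS Pool.Agent.H64.Cook

variable {m : Bool} {α : Type} [Rep α]

theorem val_append (l l' : List Bool) : val (l ++ l') = val l + 2 ^ l.length * val l' := by
  induction l with
  | nil => simp [val]
  | cons b l ih =>
    rw [List.cons_append, val, val, ih, List.length_cons, pow_succ]
    ring

theorem val_take_succ (a : List Bool) (i : ℕ) :
    val (a.take (i + 1)) = val (a.take i) + 2 ^ i * (bitAt a i).toNat := by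
  induction a generalizing i with
  | nil => simp [val]
  | cons b a ih =>
    cases i with
    | zero => simp [val]
    | succ i =>
      rw [List.take_succ_cons, List.take_succ_cons, val, val, ih, bitAt_cons_succ, pow_succ]
      ring

/-- The maximal length. -/
def mx (a b : List Bool) : ℕ := a.length + (b.length - a.length)

theorem mx_eq (a b : List Bool) : mx a b = max a.length b.length := by
  unfold mx; omega

@[fun_prop]
theorem PT.mx' {a b : α → List Bool} (ha : PT m a) (hb : PT m b) :
    PT m (fun x => mx (a x) (b x)) := by
  unfold mx; fun_prop

/-- One step of the addition. -/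
def addStep (a b : List Bool) (s : Bool × List Bool) (i : ℕ) : Bool × List Bool :=
  ((bitAt a i && bitAt b i) || ((bitAt a i && s.1) || (bitAt b i && s.1)),
    (xor (xor (bitAt a i) (bitAt b i)) s.1) :: s.2)

/-- Addition of binary numbers. -/
def addB (a b : List Bool) : List Bool :=
  let s := (List.range (mx a b)).foldl (fun s i => addStep a b s i) (false, [])
  (s.1 :: s.2).reverse

theorem addStep_spec (a b : List Bool) (N : ℕ) :
    ((List.range N).foldl (fun s i => addStep a b s i) (false, [])).2.length = N ∧
    val ((List.range N).foldl (fun s i => addStep a b s i) (false, [])).2.reverse +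
      2 ^ N * ((List.range N).foldl (fun s i => addStep a b s i) (false, [])).1.toNat =
      val (a.take N) + val (b.take N) := by
  induction N with
  | zero => simp [val]
  | succ N ih =>
    rw [List.range_succ, List.foldl_append, List.foldl_cons, List.foldl_nil]
    generalize hs : (List.range N).foldl (fun s i => addStep a b s i) (false, []) = s at ih
    obtain ⟨c, o⟩ := s
    obtain ⟨h1, h2⟩ := ih
    simp only at h1 h2
    refine ⟨by simp [addStep, h1], ?_⟩
    rw [val_take_succ, val_take_succ]
    simp only [addStep, List.reverse_cons, val_append, List.length_reverse, h1]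
    rw [pow_succ]
    have e : val [xor (xor (bitAt a N) (bitAt b N)) c] =
        (xor (xor (bitAt a N) (bitAt b N)) c).toNat := by simp [val]
    rw [e]
    have h3 : (xor (xor (bitAt a N) (bitAt b N)) c).toNat +
        2 * ((bitAt a N && bitAt b N) || ((bitAt a N && c) || (bitAt b N && c))).toNat =
        (bitAt a N).toNat + (bitAt b N).toNat + c.toNat := by
      cases bitAt a N <;> cases bitAt b N <;> cases c <;> rfl
    calc _ = val o.reverse + 2 ^ N * ((xor (xor (bitAt a N) (bitAt b N)) c).toNat +
        2 * ((bitAt a N && bitAt b N) || ((bitAt a N && c) || (bitAt b N && c))).toNat) := by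
          ring
      _ = (val o.reverse + 2 ^ N * c.toNat) + 2 ^ N * (bitAt a N).toNat +
          2 ^ N * (bitAt b N).toNat := by rw [h3]; ring
      _ = _ := by rw [h2]; ring

theorem val_addB (a b : List Bool) : val (addB a b) = val a + val b := by
  have h := addStep_spec a b (mx a b)
  unfold addB
  generalize hs : (List.range (mx a b)).foldl (fun s i => addStep a b s i) (false, []) = s at h
  obtain ⟨c, o⟩ := s
  obtain ⟨h1, h2⟩ := h
  simp only at h1 h2
  rw [List.take_of_length_le (by rw [mx_eq]; exact le_max_left _ _),
    List.take_of_length_le (by rw [mx_eq]; exact le_max_right _ _)] at h2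
  rw [← h2]
  simp only [List.reverse_cons, val_append, List.length_reverse, h1]
  simp [val]

theorem length_addB (a b : List Bool) : (addB a b).length = max a.length b.length + 1 := by
  have h := (addStep_spec a b (mx a b)).1
  unfold addB
  simp only [List.length_reverse, List.length_cons]
  rw [h, mx_eq]

theorem size_words_le (l : List Bool) : size l ≤ 4 * l.length + 1 := (size_bits l).2

theorem two_length_le_size (l : List Bool) : 2 * l.length + 1 ≤ size l := (size_bits l).1

@[fun_prop]
theorem PT.addB' {a b : α → List Bool} (ha : PT m a) (hb : PT m b) :
    PT m (fun x => addB (a x) (b x)) := by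
  have key : PT m (fun p : List Bool × List Bool => addB p.1 p.2) := by
    have h1 := PT.foldl (m := m) (α := List Bool × List Bool)
      (l := fun p => List.range (mx p.1 p.2))
      (s := fun z : (List Bool × List Bool) × ((Bool × List Bool) × ℕ) =>
        addStep z.1.1 z.1.2 z.2.1 z.2.2) (ini := fun _ => (false, ([] : List Bool)))
      (by fun_prop) (by fun_prop) (by unfold addStep; fun_prop) (4 * Polynomial.X + 5) (by
        intro p k
        simp only
        rw [List.take_range]
        have h := (addStep_spec p.1 p.2 (min k (mx p.1 p.2))).1
        generalize (List.range (min k (mx p.1 p.2))).foldl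
          (fun s i => addStep p.1 p.2 s i) (false, []) = s at h
        obtain ⟨c, o⟩ := s
        simp only at h
        obtain ⟨a, b⟩ := p
        simp only at h
        have h2 := size_words_le o
        have h3 := size_bool_le c
        have h4 := two_length_le_size a
        have h5 := two_length_le_size b
        rw [mx_eq] at h
        have h6 : o.length ≤ a.length + b.length := by omega
        simp only [size_pair, Polynomial.eval_add, Polynomial.eval_mul, Polynomial.eval_X,
          Polynomial.eval_ofNat]
        omega)
    unfold addB
    exact (PT.cons' h1.fst' h1.snd').reverse'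
  exact key.comp' (ha.prodMk hb)

/-- Multiplication of binary numbers. -/
def mulB (a b : List Bool) : List Bool :=
  a.foldr (fun x r => addB (bif x then b else []) (false :: r)) []

theorem val_mulB (a b : List Bool) : val (mulB a b) = val a * val b := by
  unfold mulB
  induction a with
  | nil => simp [val]
  | cons x a ih =>
    rw [List.foldr_cons, val_addB]
    simp only [val, ih]
    cases x <;> simp [val] <;> ring

theorem length_mulB (a b : List Bool) : (mulB a b).length ≤ b.length + 2 * a.length := by
  unfold mulB
  induction a with
  | nil => simp
  | cons x a ih =>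
    rw [List.foldr_cons, length_addB]
    simp only [List.length_cons]
    have : (bif x then b else []).length ≤ b.length := by cases x <;> simp
    omega

theorem size_mulB_drop (a b : List Bool) (k : ℕ) :
    size ((a.drop k).foldr (fun x r => addB (bif x then b else []) (false :: r)) []) ≤
      8 * (size a + size b + 1) + 1 := by
  have h := length_mulB (a.drop k) b
  unfold mulB at h
  have h2 := size_words_le ((a.drop k).foldr
    (fun x r => addB (bif x then b else []) (false :: r)) [])
  have h4 := two_length_le_size a
  have h5 := two_length_le_size b
  have h6 : (a.drop k).length ≤ a.length := by simp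
  omega

theorem PT.mulB0 : PT m (fun p : List Bool × List Bool => mulB p.1 p.2) := by
  have hst : PT m (fun z : (List Bool × List Bool) × (Bool × List Bool) =>
      addB (bif z.2.1 then z.1.2 else []) (false :: z.2.2)) :=
    PT.addB' (by fun_prop) (by fun_prop)
  have h1 := PT.foldr (m := m) (α := List Bool × List Bool)
    (l := fun p => p.1)
    (s := fun z : (List Bool × List Bool) × (Bool × List Bool) =>
      addB (bif z.2.1 then z.1.2 else []) (false :: z.2.2)) (ini := fun _ => ([] : List Bool))
    (by fun_prop) (by fun_prop) hst (8 * Polynomial.X + 1) (by
      intro p k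
      have h := size_mulB_drop p.1 p.2 k
      have e : size p = size p.1 + size p.2 + 1 := size_pair p.1 p.2
      rw [Polynomial.eval_add, Polynomial.eval_mul, Polynomial.eval_X, e,
        Polynomial.eval_ofNat, Polynomial.eval_one]
      exact h)
  exact h1

attribute [irreducible] mulB

@[fun_prop]
theorem PT.mulB' {a b : α → List Bool} (ha : PT m a) (hb : PT m b) :
    PT m (fun x => mulB (a x) (b x)) :=
  PT.mulB0.comp' (ha.prodMk hb)

/-- Comparison of binary numbers. -/
def ltB (a b : List Bool) : Bool :=
  (List.range (mx a b)).foldl
    (fun s i => bif (bitAt a i == bitAt b i) then s else bitAt b i) false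

theorem val_take_lt (a : List Bool) (N : ℕ) : val (a.take N) < 2 ^ N := by
  induction N with
  | zero => simp [val]
  | succ N ih =>
    rw [val_take_succ, pow_succ]
    have : (bitAt a N).toNat ≤ 1 := Bool.toNat_le _
    nlinarith

theorem ltB_spec (a b : List Bool) (N : ℕ) :
    (List.range N).foldl (fun s i => bif (bitAt a i == bitAt b i) then s else bitAt b i) false =
      decide (val (a.take N) < val (b.take N)) := by
  induction N with
  | zero => simp [val]
  | succ N ih =>
    rw [List.range_succ, List.foldl_append, List.foldl_cons, List.foldl_nil, ih,
      val_take_succ, val_take_succ]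
    have h1 := val_take_lt a N
    have h2 := val_take_lt b N
    cases bitAt a N <;> cases bitAt b N
    · simp
    · simp only [Bool.toNat_false, Bool.toNat_true, mul_zero, mul_one, add_zero]
      show true = _
      symm
      rw [decide_eq_true_eq]
      omega
    · simp only [Bool.toNat_false, Bool.toNat_true, mul_zero, mul_one, add_zero]
      show false = _
      symm
      rw [decide_eq_false_iff_not]
      omega
    · simp

theorem ltB_eq (a b : List Bool) : ltB a b = decide (val a < val b) := by
  unfold ltB
  rw [ltB_spec, List.take_of_length_le (by rw [mx_eq]; exact le_max_left _ _),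
    List.take_of_length_le (by rw [mx_eq]; exact le_max_right _ _)]

@[fun_prop]
theorem PT.ltB' {a b : α → List Bool} (ha : PT m a) (hb : PT m b) :
    PT m (fun x => ltB (a x) (b x)) := by
  have key : PT m (fun p : List Bool × List Bool => ltB p.1 p.2) := by
    have h1 := PT.foldl (m := m) (α := List Bool × List Bool)
      (l := fun p => List.range (mx p.1 p.2))
      (s := fun z : (List Bool × List Bool) × (Bool × ℕ) =>
        bif (bitAt z.1.1 z.2.2 == bitAt z.1.2 z.2.2) then z.2.1 else bitAt z.1.2 z.2.2)
      (ini := fun _ => false)
      (by fun_prop) (by fun_prop) (by fun_prop) 3 (by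
        rintro ⟨a, b⟩ k
        simp only
        refine (size_bool_le _).trans ?_
        simp)
    exact h1
  exact key.comp' (ha.prodMk hb)

/-- Parity. -/
def oddB (n : ℕ) : Bool := (List.range n).foldl (fun s _ => !s) false

theorem oddB_eq (n : ℕ) : oddB n = decide (n % 2 = 1) := by
  unfold oddB
  induction n with
  | zero => rfl
  | succ n ih =>
    rw [List.range_succ, List.foldl_append, List.foldl_cons, List.foldl_nil, ih]
    rcases Nat.mod_two_eq_zero_or_one n with h | h
    · have : (n + 1) % 2 = 1 := by omega
      simp [h, this]
    · have : (n + 1) % 2 = 0 := by omega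
      simp [h, this]

@[fun_prop]
theorem PT.oddB' {n : α → ℕ} (hn : PT m n) : PT m (fun x => oddB (n x)) := by
  have key : PT m (fun n : ℕ => oddB n) := by
    have h1 := PT.foldl (m := m) (α := ℕ)
      (l := fun p => List.range p)
      (s := fun z : ℕ × (Bool × ℕ) => !z.2.1)
      (ini := fun _ => false)
      (by fun_prop) (by fun_prop) (by fun_prop) 3 (by
        rintro a k
        simp only
        refine (size_bool_le _).trans ?_
        simp)
    exact h1
  exact key.comp' hn

end Pool.Agent.H80.ENC

attribute [irreducible] Pool.Agent.H80.ENC.addB Pool.Agent.H80.ENC.ltB Pool.Agent.H80.ENC.oddB
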