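import Mathlib
import Pool.Agent.H64.Cook.Defs
import Pool.Agent.H64.Cook.PTX

/-!
# Decoding of pairs of words; `P ⊆ NP`
-/

namespace Pool.Agent.H80.ENC

open Pool.Agent.PPS Pool.Agent.H64.Cook

variable {m : Bool} {α : Type} [Rep α]

/-- One step of the decoding of a pair. State: in the first word?, is the next bit a data bit?,
the two words (reversed). -/
def upStep (s : (Bool × Bool) × (List Bool × List Bool)) (b : Bool) :
    (Bool × Bool) × (List Bool × List Bool) :=
  bif s.1.1 then
    (bif s.1.2 then ((true, false), (b :: s.2.1, s.2.2)) else
      (bif b then ((true, true), s.2) else ((false, false), s.2)))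
  else (s.1, (s.2.1, b :: s.2.2))

/-- The decoding of a pair. -/
def unpair (u : List Bool) : List Bool × List Bool :=
  let s := u.foldl (fun s b => upStep s b) ((true, false), ([], []))
  (s.2.1.reverse, s.2.2.reverse)

theorem unpair_pairW (x y : List Bool) : unpair (pairW x y) = (x, y) := by
  have h1 : ∀ (x r : List Bool), (x.flatMap (fun b => [true, b])).foldl
      (fun s b => upStep s b) ((true, false), (r, [])) = ((true, false), (x.reverse ++ r, [])) := by
    intro x
    induction x with
    | nil => intro r; rfl
    | cons a x ih =>
      intro r
      rw [List.flatMap_cons, List.foldl_append]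
      show (x.flatMap (fun b => [true, b])).foldl (fun s b => upStep s b)
        ((true, false), (a :: r, [])) = _
      rw [ih]
      simp
  have h2 : ∀ (y r l : List Bool), y.foldl (fun s b => upStep s b) ((false, false), (l, r)) =
      ((false, false), (l, y.reverse ++ r)) := by
    intro y
    induction y with
    | nil => intro r l; rfl
    | cons a y ih =>
      intro r l
      rw [List.foldl_cons]
      show y.foldl (fun s b => upStep s b) ((false, false), (l, a :: r)) = _
      rw [ih]
      simp
  unfold unpair pairW
  rw [List.foldl_append, h1, List.foldl_cons]
  have h3 : upStep ((true, false), (x.reverse ++ [], [])) false =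
      ((false, false), (x.reverse, [])) := by simp [upStep]
  simp only [h3, h2]
  simp

theorem size_bool_pos (b : Bool) : 1 ≤ size b := size_pos b

@[fun_prop]
theorem PT.unpair' {u : α → List Bool} (hu : PT m u) : PT m (fun a => unpair (u a)) := by
  have key : PT m (fun u : List Bool => unpair u) := by
    have hst : PT m (fun z : List Bool × (((Bool × Bool) × (List Bool × List Bool)) × Bool) =>
        upStep z.2.1 z.2.2) := by
      unfold upStep
      fun_prop
    have hsz : ∀ (l : List Bool),
        size (l.foldl (fun s b => upStep s b) ((true, false), (([] : List Bool), ([] : List Bool))))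
          ≤ size l + 12 := by
      intro l
      induction l using List.reverseRecOn with
      | nil =>
        have ht : size true = 3 := rfl
        have hf : size false = 1 := rfl
        simp only [List.foldl_nil, size_pair, size_nil, ht, hf]
        omega
      | append_singleton l b ih =>
        rw [List.foldl_append, List.foldl_cons, List.foldl_nil]
        have h := size_append l [b]
        rw [size_cons, size_nil] at h
        generalize hz : l.foldl (fun s b => upStep s b)
          ((true, false), (([] : List Bool), ([] : List Bool))) = z at ih
        obtain ⟨⟨c, d⟩, r, s⟩ := z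
        have ht : size true = 3 := rfl
        have hf : size false = 1 := rfl
        unfold upStep
        simp only [size_pair] at ih
        cases c <;> cases d <;> cases b <;>
          simp only [cond_true, cond_false, size_pair, size_cons, ht, hf] at ih h ⊢ <;> omega
    have h1 := PT.foldl (m := m) (α := List Bool) (l := fun u => u)
      (s := fun z : List Bool × (((Bool × Bool) × (List Bool × List Bool)) × Bool) =>
        upStep z.2.1 z.2.2) (ini := fun _ => ((true, false), (([] : List Bool), ([] : List Bool))))
      (by fun_prop) (by fun_prop) hst (Polynomial.X + 12) (by
        intro a k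
        simp only
        refine (hsz _).trans ?_
        have := size_take_le a k
        simp only [Polynomial.eval_add, Polynomial.eval_X, Polynomial.eval_ofNat]
        omega)
    unfold unpair
    exact PT.prodMk (h1.snd'.fst'.reverse') (h1.snd'.snd'.reverse')
  exact key.comp' hu

/-- `P ⊆ NP`. -/
theorem P_subset_NP : P ⊆ NP := by
  intro L hL
  classical
  rw [mem_P_iff] at hL
  refine ⟨{u | (unpair u).1 ∈ L}, ?_, 0, ?_⟩
  · rw [mem_P_iff]
    have h : PT true (fun u => (unpair u).1) := by fun_prop
    exact hL.comp h
  · intro x
    constructor
    · intro hx
      refine ⟨[], by simp, ?_⟩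
      show (unpair (pairW x [])).1 ∈ L
      rw [unpair_pairW]
      exact hx
    · rintro ⟨y, -, hy⟩
      have hy' : (unpair (pairW x y)).1 ∈ L := hy
      rwa [unpair_pairW] at hy'

end Pool.Agent.H80.ENC
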