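import Mathlib

/-!
# The graph of a formula, and the local argument
-/

namespace Pool.Agent.H80.ENC

/-- A formula with variables `0, …, n - 1` and clauses `0, …, m - 1`; `pos i j` (`neg i j`) means
that variable `i` occurs positively (negatively) in clause `j`. -/
structure Frm where
  n : ℕ
  m : ℕ
  pos : ℕ → ℕ → Bool
  neg : ℕ → ℕ → Bool

namespace Frm

variable (F : Frm)

/-- The vertices: positions `(i, p)` of the chains, and clause vertices `(n, j)`. -/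
def GV (u : ℕ × ℕ) : Prop := (u.1 < F.n ∧ u.2 < 3 * F.m + 3) ∨ (u.1 = F.n ∧ u.2 < F.m)

/-- The end positions of the chains. -/
def IsEnd (p : ℕ) : Prop := p = 0 ∨ p = 3 * F.m + 2

/-- The arcs. -/
def GAdj (u v : ℕ × ℕ) : Prop :=
  (u.1 < F.n ∧ v.1 = u.1 ∧ u.2 < 3 * F.m + 3 ∧ v.2 < 3 * F.m + 3 ∧
    (v.2 = u.2 + 1 ∨ u.2 = v.2 + 1)) ∨
  (v.1 = u.1 + 1 ∧ v.1 < F.n ∧ F.IsEnd u.2 ∧ F.IsEnd v.2) ∨
  (u.1 < F.n ∧ v.1 = F.n ∧ v.2 < F.m ∧
    ((F.pos u.1 v.2 = true ∧ u.2 = 3 * v.2 + 2) ∨ (F.neg u.1 v.2 = true ∧ u.2 = 3 * v.2 + 3))) ∨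
  (u.1 = F.n ∧ u.2 < F.m ∧ v.1 < F.n ∧
    ((F.pos v.1 u.2 = true ∧ v.2 = 3 * u.2 + 3) ∨ (F.neg v.1 u.2 = true ∧ v.2 = 3 * u.2 + 2)))

/-- Ends of the first chain. -/
def Start (u : ℕ × ℕ) : Prop := u.1 = 0 ∧ 0 < F.n ∧ F.IsEnd u.2

/-- Ends of the last chain. -/
def Stop (u : ℕ × ℕ) : Prop := u.1 + 1 = F.n ∧ F.IsEnd u.2

/-- `σ` satisfies all clauses. -/
def Satisfied (σ : ℕ → Prop) : Prop :=
  ∀ j < F.m, ∃ i < F.n, (F.pos i j = true ∧ σ i) ∨ (F.neg i j = true ∧ ¬ σ i)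

variable {F}

theorem GAdj.ne {u v : ℕ × ℕ} (h : F.GAdj u v) : u ≠ v := by
  rintro rfl
  unfold GAdj at h
  omega

theorem GAdj.left {u v : ℕ × ℕ} (h : F.GAdj u v) : F.GV u := by
  unfold GAdj IsEnd at h
  unfold GV
  omega

theorem GAdj.right {u v : ℕ × ℕ} (h : F.GAdj u v) : F.GV v := by
  unfold GAdj IsEnd at h
  unfold GV
  omega

theorem out_sep {i p : ℕ} {w : ℕ × ℕ} (hi : i < F.n) (hp : p % 3 = 1) (hp1 : p < 3 * F.m + 2)
    (h : F.GAdj (i, p) w) : w = (i, p + 1) ∨ w = (i, p - 1) := by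
  obtain ⟨w1, w2⟩ := w
  unfold GAdj IsEnd at h
  simp only [Prod.mk.injEq] at *
  omega

theorem in_sep {i p : ℕ} {w : ℕ × ℕ} (hi : i < F.n) (hp : p % 3 = 1)
    (h : F.GAdj w (i, p)) : w = (i, p + 1) ∨ w = (i, p - 1) := by
  obtain ⟨w1, w2⟩ := w
  unfold GAdj IsEnd at h
  simp only [Prod.mk.injEq] at *
  omega

theorem out_a {i j : ℕ} {w : ℕ × ℕ} (hi : i < F.n) (hj : j < F.m)
    (h : F.GAdj (i, 3 * j + 2) w) :
    w = (i, 3 * j + 1) ∨ w = (i, 3 * j + 3) ∨ (w = (F.n, j) ∧ F.pos i j = true) := by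
  obtain ⟨w1, w2⟩ := w
  unfold GAdj IsEnd at h
  simp only [Prod.mk.injEq] at *
  rcases h with h | h | ⟨h1, h2, h3, ⟨h4, h5⟩ | ⟨h4, h5⟩⟩ | h
  · omega
  · omega
  · obtain rfl : w2 = j := by omega
    exact Or.inr (Or.inr ⟨⟨h2, rfl⟩, h4⟩)
  · omega
  · omega

theorem out_b {i j : ℕ} {w : ℕ × ℕ} (hi : i < F.n) (hj : j < F.m)
    (h : F.GAdj (i, 3 * j + 3) w) :
    w = (i, 3 * j + 2) ∨ w = (i, 3 * j + 4) ∨ (w = (F.n, j) ∧ F.neg i j = true) := by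
  obtain ⟨w1, w2⟩ := w
  unfold GAdj IsEnd at h
  simp only [Prod.mk.injEq] at *
  rcases h with h | h | ⟨h1, h2, h3, ⟨h4, h5⟩ | ⟨h4, h5⟩⟩ | h
  · omega
  · omega
  · omega
  · obtain rfl : w2 = j := by omega
    exact Or.inr (Or.inr ⟨⟨h2, rfl⟩, h4⟩)
  · omega

theorem in_a {i j : ℕ} {w : ℕ × ℕ} (hi : i < F.n) (hj : j < F.m)
    (h : F.GAdj w (i, 3 * j + 2)) :
    w = (i, 3 * j + 1) ∨ w = (i, 3 * j + 3) ∨ (w = (F.n, j) ∧ F.neg i j = true) := by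
  obtain ⟨w1, w2⟩ := w
  unfold GAdj IsEnd at h
  simp only [Prod.mk.injEq] at *
  rcases h with h | h | h | ⟨h1, h2, h3, ⟨h4, h5⟩ | ⟨h4, h5⟩⟩
  · omega
  · omega
  · omega
  · omega
  · obtain rfl : w2 = j := by omega
    exact Or.inr (Or.inr ⟨⟨h1, rfl⟩, h4⟩)

theorem in_b {i j : ℕ} {w : ℕ × ℕ} (hi : i < F.n) (hj : j < F.m)
    (h : F.GAdj w (i, 3 * j + 3)) :
    w = (i, 3 * j + 2) ∨ w = (i, 3 * j + 4) ∨ (w = (F.n, j) ∧ F.pos i j = true) := by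
  obtain ⟨w1, w2⟩ := w
  unfold GAdj IsEnd at h
  simp only [Prod.mk.injEq] at *
  rcases h with h | h | h | ⟨h1, h2, h3, ⟨h4, h5⟩ | ⟨h4, h5⟩⟩
  · omega
  · omega
  · omega
  · obtain rfl : w2 = j := by omega
    exact Or.inr (Or.inr ⟨⟨h1, rfl⟩, h4⟩)
  · omega

theorem in_d {j : ℕ} {w : ℕ × ℕ} (h : F.GAdj w (F.n, j)) :
    ∃ i < F.n, (w = (i, 3 * j + 2) ∧ F.pos i j = true) ∨
      (w = (i, 3 * j + 3) ∧ F.neg i j = true) := by
  obtain ⟨w1, w2⟩ := w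
  unfold GAdj IsEnd at h
  simp only [Prod.mk.injEq] at *
  rcases h with h | h | ⟨h1, h2, h3, ⟨h4, h5⟩ | ⟨h4, h5⟩⟩ | h
  · omega
  · omega
  · exact ⟨w1, h1, Or.inl ⟨⟨rfl, h5⟩, h4⟩⟩
  · exact ⟨w1, h1, Or.inr ⟨⟨rfl, h5⟩, h4⟩⟩
  · omega

/-- The properties of the successor relation of a Hamiltonian path. -/
structure NxSpec (F : Frm) (Nx : ℕ × ℕ → ℕ × ℕ → Prop) : Prop where
  adj : ∀ {u w}, Nx u w → F.GAdj u w
  inj : ∀ {u u' w}, Nx u w → Nx u' w → u = u'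
  fn : ∀ {u w w'}, Nx u w → Nx u w' → w = w'
  irr : ∀ {u w}, Nx u w → ¬ Nx w u
  out : ∀ {u}, F.GV u → (∃ w, Nx u w) ∨ F.Stop u
  into : ∀ {w}, F.GV w → (∃ u, Nx u w) ∨ F.Start w

variable {Nx : ℕ × ℕ → ℕ × ℕ → Prop}

/-- Chain `i` is traversed from left to right at position `p`. -/
def LR (Nx : ℕ × ℕ → ℕ × ℕ → Prop) (i p : ℕ) : Prop :=
  Nx (i, p - 1) (i, p) ∧ Nx (i, p) (i, p + 1)

/-- Chain `i` is traversed from right to left at position `p`. -/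
def RL (Nx : ℕ × ℕ → ℕ × ℕ → Prop) (i p : ℕ) : Prop :=
  Nx (i, p + 1) (i, p) ∧ Nx (i, p) (i, p - 1)

theorem NxSpec.sep (h : NxSpec F Nx) {i p : ℕ} (hi : i < F.n) (hp : p % 3 = 1)
    (hp1 : p < 3 * F.m + 2) : LR Nx i p ∨ RL Nx i p := by
  have hG : F.GV (i, p) := Or.inl ⟨hi, by simp only; omega⟩
  rcases h.out hG with ⟨w, hw⟩ | hw
  swap
  · unfold Stop IsEnd at hw; simp only at hw; omega
  rcases h.into hG with ⟨u, hu⟩ | hu
  swap
  · unfold Start IsEnd at hu; simp only at hu; omega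
  rcases out_sep hi hp hp1 (h.adj hw) with rfl | rfl <;>
    rcases in_sep hi hp (h.adj hu) with rfl | rfl
  · exact absurd hw (h.irr hu)
  · exact Or.inl ⟨hu, hw⟩
  · exact Or.inr ⟨hu, hw⟩
  · exact absurd hw (h.irr hu)

theorem NxSpec.step (h : NxSpec F Nx) {i j : ℕ} (hi : i < F.n) (hj : j < F.m) :
    LR Nx i (3 * j + 1) ↔ LR Nx i (3 * j + 4) := by
  have hm := hj
  have hGa : F.GV (i, 3 * j + 2) := Or.inl ⟨hi, by simp only; omega⟩
  have hGb : F.GV (i, 3 * j + 3) := Or.inl ⟨hi, by simp only; omega⟩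
  have s1 := h.sep hi (show (3 * j + 1) % 3 = 1 by omega) (by omega)
  have s2 := h.sep hi (show (3 * j + 4) % 3 = 1 by omega) (by omega)
  constructor
  · rintro ⟨-, hfa⟩
    rcases s2 with s2 | ⟨-, s2⟩
    · exact s2
    exfalso
    -- `f → a` and `e → b`
    have hfa : Nx (i, 3 * j + 1) (i, 3 * j + 2) := hfa
    have heb : Nx (i, 3 * j + 4) (i, 3 * j + 3) := s2
    rcases h.out hGa with ⟨x, hx⟩ | hx
    swap
    · unfold Stop IsEnd at hx; simp only at hx; omega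
    rcases h.out hGb with ⟨y, hy⟩ | hy
    swap
    · unfold Stop IsEnd at hy; simp only at hy; omega
    rcases out_a hi hj (h.adj hx) with rfl | rfl | ⟨rfl, -⟩
    · exact h.irr hx hfa
    · have := h.inj hx heb
      simp at this
    · rcases out_b hi hj (h.adj hy) with rfl | rfl | ⟨rfl, -⟩
      · have := h.inj hy hfa
        simp at this
      · exact h.irr hy heb
      · have := h.inj hx hy
        simp at this
  · rintro ⟨hbe, -⟩
    rcases s1 with s1 | ⟨s1, -⟩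
    · exact s1
    exfalso
    have hbe : Nx (i, 3 * j + 3) (i, 3 * j + 4) := hbe
    have haf : Nx (i, 3 * j + 2) (i, 3 * j + 1) := s1
    rcases h.into hGa with ⟨x, hx⟩ | hx
    swap
    · unfold Start IsEnd at hx; simp only at hx; omega
    rcases h.into hGb with ⟨y, hy⟩ | hy
    swap
    · unfold Start IsEnd at hy; simp only at hy; omega
    rcases in_a hi hj (h.adj hx) with rfl | rfl | ⟨rfl, -⟩
    · exact h.irr hx haf
    · have := h.fn hx hbe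
      simp at this
    · rcases in_b hi hj (h.adj hy) with rfl | rfl | ⟨rfl, -⟩
      · have := h.fn hy haf
        simp at this
      · exact h.irr hy hbe
      · have := h.fn hx hy
        simp at this

theorem NxSpec.const (h : NxSpec F Nx) {i j : ℕ} (hi : i < F.n) (hj : j ≤ F.m) :
    LR Nx i 1 ↔ LR Nx i (3 * j + 1) := by
  induction j with
  | zero => rfl
  | succ j ih =>
    rw [ih (by omega), h.step hi (by omega)]
    rfl

/-- The local argument: a Hamiltonian path gives a satisfying assignment. -/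
theorem NxSpec.sat (h : NxSpec F Nx) : F.Satisfied (fun i => LR Nx i 1) := by
  intro j hj
  have hG : F.GV (F.n, j) := Or.inr ⟨rfl, hj⟩
  rcases h.into hG with ⟨u, hu⟩ | hu
  swap
  · unfold Start at hu; simp only at hu; omega
  obtain ⟨i, hi, ⟨rfl, hp⟩ | ⟨rfl, hp⟩⟩ := in_d (h.adj hu)
  · refine ⟨i, hi, Or.inl ⟨hp, ?_⟩⟩
    refine (h.const hi hj.le).mpr ?_
    rcases h.sep hi (show (3 * j + 1) % 3 = 1 by omega) (by omega) with s | ⟨s, -⟩
    · exact s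
    · have := h.fn (show Nx (i, 3 * j + 2) (i, 3 * j + 1) from s) hu
      simp at this
      omega
  · refine ⟨i, hi, Or.inr ⟨hp, ?_⟩⟩
    refine fun s' => ?_
    obtain ⟨s, -⟩ := (h.const hi (show j + 1 ≤ F.m by omega)).mp s'
    have := h.fn (show Nx (i, 3 * j + 3) (i, 3 * j + 4) from s) hu
    simp at this
    omega

end Frm

end Pool.Agent.H80.ENC
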