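import Mathlib
import Pool.Agent.H80.ENC.Local

/-!
# Odd negative cycles give satisfying assignments
-/

namespace Pool.Agent.H80.ENC

/-- Vertices: two copies of every vertex of the graph of the formula, and one more vertex. -/
abbrev Nm := (ℕ × ℕ) × Bool

theorem even_of_alternating {k : ℕ} {b : ZMod k → Bool} (h : ∀ t, b (t + 1) = !b t) :
    Even k := by
  have key : ∀ j : ℕ, b (j : ZMod k) = (b 0 ^^ decide (j % 2 = 1)) := by
    intro j
    induction j with
    | zero => simp
    | succ j ih =>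
      rw [Nat.cast_succ, h, ih]
      rcases Nat.mod_two_eq_zero_or_one j with h' | h'
      · have : (j + 1) % 2 = 1 := by omega
        simp [h', this]
      · have : (j + 1) % 2 = 0 := by omega
        simp [h', this]
  have h1 := key k
  rw [ZMod.natCast_self] at h1
  rcases Nat.mod_two_eq_zero_or_one k with h' | h'
  · exact Nat.even_iff.mpr h'
  · simp [h'] at h1

namespace Frm

variable (F : Frm)

/-- The additional vertex. -/
def z : Nm := ((F.n + 1, 0), false)

/-- The arcs in forward direction. -/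
def Fwd (x y : Nm) : Prop :=
  (x.1 = y.1 ∧ x.2 = false ∧ y.2 = true ∧ F.GV x.1) ∨
  (x.2 = true ∧ y.2 = false ∧ F.GAdj x.1 y.1) ∨
  (x.2 = true ∧ F.Stop x.1 ∧ y = F.z) ∨
  (x = F.z ∧ y.2 = false ∧ F.Start y.1)

/-- The number of vertices of the graph of the formula. -/
def N : ℕ := F.n * (3 * F.m + 3) + F.m

open Classical in
/-- The arc weights. -/
noncomputable def hw (x y : Nm) : ℤ :=
  if F.Fwd x y then (if x = F.z then 2 * F.N - 1 else -1) else 2 * F.N + 1

/-- The set of vertices of the graph. -/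
def gvF : Finset (ℕ × ℕ) :=
  (Finset.range F.n ×ˢ Finset.range (3 * F.m + 3)) ∪ ({F.n} ×ˢ Finset.range F.m)

theorem mem_gvF {u : ℕ × ℕ} : u ∈ F.gvF ↔ F.GV u := by
  obtain ⟨a, b⟩ := u
  simp only [gvF, GV, Finset.mem_union, Finset.mem_product, Finset.mem_range,
    Finset.mem_singleton]

theorem card_gvF : F.gvF.card = F.N := by
  unfold gvF N
  rw [Finset.card_union_of_disjoint]
  · simp
  · rw [Finset.disjoint_left]
    rintro ⟨a, b⟩ h1 h2
    simp at h1 h2
    omega

/-- The set of all vertices. -/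
def hvF : Finset Nm := insert F.z (F.gvF ×ˢ Finset.univ)

theorem card_hvF_le : F.hvF.card ≤ 2 * F.N + 1 := by
  unfold hvF
  refine (Finset.card_insert_le _ _).trans ?_
  rw [Finset.card_product, card_gvF]
  simp
  omega

variable {F}

theorem z_not_gv : ¬ F.GV F.z.1 := by
  unfold GV z; simp only; omega

theorem not_gv_of_eq {w : ℕ × ℕ} {b : Bool} (h : (w, b) = F.z) : ¬ F.GV w := by
  have h1 : w = F.z.1 := congrArg Prod.fst h
  rw [h1]
  exact z_not_gv

theorem Start.gv {u : ℕ × ℕ} (h : F.Start u) : F.GV u := by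
  unfold Start IsEnd at h; unfold GV; omega

theorem Stop.gv {u : ℕ × ℕ} (h : F.Stop u) : F.GV u := by
  unfold Stop IsEnd at h; unfold GV; omega

theorem Fwd.left {x y : Nm} (h : F.Fwd x y) : x ∈ F.hvF := by
  simp only [hvF, Finset.mem_insert, Finset.mem_product, Finset.mem_univ, and_true, mem_gvF]
  rcases h with ⟨-, -, -, h⟩ | ⟨-, -, h⟩ | ⟨-, h, -⟩ | ⟨h, -, -⟩
  · exact Or.inr h
  · exact Or.inr h.left
  · exact Or.inr h.gv
  · exact Or.inl h

theorem Fwd.right {x y : Nm} (h : F.Fwd x y) : y ∈ F.hvF := by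
  simp only [hvF, Finset.mem_insert, Finset.mem_product, Finset.mem_univ, and_true, mem_gvF]
  rcases h with ⟨h1, -, -, h⟩ | ⟨-, -, h⟩ | ⟨-, -, h⟩ | ⟨-, -, h⟩
  · exact Or.inr (h1 ▸ h)
  · exact Or.inr h.right
  · exact Or.inl h
  · exact Or.inr h.gv

theorem neg_one_le_hw (x y : Nm) : -1 ≤ F.hw x y := by
  unfold hw
  split_ifs <;> omega

theorem sound {k : ℕ} [NeZero k] (hk : 2 ≤ k) {v : ZMod k → Nm} (hv : Function.Injective v)
    (hadj : ∀ i, F.Fwd (v i) (v (i + 1)) ∨ F.Fwd (v (i + 1)) (v i)) (hodd : Odd k)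
    (hneg : ∑ i, F.hw (v i) (v (i + 1)) < 0) : ∃ σ : ℕ → Prop, F.Satisfied σ := by
  classical
  have hmem : ∀ i, v i ∈ F.hvF := fun i => (hadj i).elim (fun h => h.left) (fun h => h.right)
  have himg : Finset.univ.image v ⊆ F.hvF := by
    intro x hx
    obtain ⟨i, -, rfl⟩ := Finset.mem_image.mp hx
    exact hmem i
  have hcard : (Finset.univ.image v).card = k := by
    rw [Finset.card_image_of_injective _ hv, Finset.card_univ, ZMod.card]
  have hkM : k ≤ 2 * F.N + 1 := by
    rw [← hcard]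
    exact (Finset.card_le_card himg).trans F.card_hvF_le
  -- all arcs are forward arcs
  have hfwd : ∀ i, F.Fwd (v i) (v (i + 1)) := by
    by_contra hcon
    push Not at hcon
    obtain ⟨i, hi⟩ := hcon
    have h1 : F.hw (v i) (v (i + 1)) = 2 * F.N + 1 := by simp [hw, hi]
    have h2 : -((k : ℤ) - 1) ≤ ∑ j ∈ Finset.univ.erase i, F.hw (v j) (v (j + 1)) := by
      have : ∑ j ∈ Finset.univ.erase i, (-1 : ℤ) ≤
          ∑ j ∈ Finset.univ.erase i, F.hw (v j) (v (j + 1)) :=
        Finset.sum_le_sum fun j _ => neg_one_le_hw _ _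
      rw [Finset.sum_const, Finset.card_erase_of_mem (Finset.mem_univ _), Finset.card_univ,
        ZMod.card] at this
      simp only [nsmul_eq_mul, mul_neg, mul_one] at this
      rw [Nat.cast_sub (by omega)] at this
      simpa using this
    have h3 := Finset.add_sum_erase Finset.univ (fun j => F.hw (v j) (v (j + 1)))
      (Finset.mem_univ i)
    omega
  -- the additional vertex is on the cycle
  have hz : ∃ i, v i = F.z := by
    by_contra hcon
    push Not at hcon
    have : Even k := by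
      apply even_of_alternating (b := fun t => (v t).2)
      intro t
      rcases hfwd t with ⟨-, h1, h2, -⟩ | ⟨h1, h2, -⟩ | ⟨-, -, h⟩ | ⟨h, -, -⟩
      · simp [h1, h2]
      · simp [h1, h2]
      · exact absurd h (hcon _)
      · exact absurd h (hcon _)
    exact (Nat.not_even_iff_odd.mpr hodd) this
  obtain ⟨i0, hi0⟩ := hz
  -- the weight of the cycle
  have hw1 : ∀ i, F.hw (v i) (v (i + 1)) = if v i = F.z then (2 * F.N - 1 : ℤ) else -1 := by
    intro i
    simp [hw, hfwd i]
  have hsum : ∑ i, F.hw (v i) (v (i + 1)) = 2 * F.N - 1 - (k - 1) := by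
    rw [← Finset.add_sum_erase Finset.univ _ (Finset.mem_univ i0), hw1, if_pos hi0]
    have : ∑ j ∈ Finset.univ.erase i0, F.hw (v j) (v (j + 1)) =
        ∑ j ∈ Finset.univ.erase i0, (-1 : ℤ) := by
      refine Finset.sum_congr rfl fun j hj => ?_
      rw [hw1, if_neg]
      intro h
      exact (Finset.ne_of_mem_erase hj) (hv (h.trans hi0.symm))
    rw [this, Finset.sum_const, Finset.card_erase_of_mem (Finset.mem_univ _), Finset.card_univ,
      ZMod.card]
    simp only [nsmul_eq_mul, mul_neg, mul_one]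
    rw [Nat.cast_sub (by omega)]
    push_cast
    ring
  have hkeq : k = 2 * F.N + 1 := by
    rw [hsum] at hneg
    obtain ⟨r, hr⟩ := hodd
    omega
  have himg' : Finset.univ.image v = F.hvF := by
    apply Finset.eq_of_subset_of_card_le himg
    rw [hcard, hkeq]
    exact F.card_hvF_le
  have hsurj : ∀ x ∈ F.hvF, ∃ i, v i = x := by
    intro x hx
    rw [← himg'] at hx
    obtain ⟨i, -, h⟩ := Finset.mem_image.mp hx
    exact ⟨i, h⟩
  have hsurj' : ∀ u b, F.GV u → ∃ i, v i = (u, b) := by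
    intro u b hu
    apply hsurj
    simp [hvF, mem_gvF, hu]
  -- the successor relation
  let Nx : ℕ × ℕ → ℕ × ℕ → Prop := fun u w => F.GV u ∧ F.GV w ∧
    ∃ t, v t = (u, true) ∧ v (t + 1) = (w, false)
  have hff : ∀ t u w, v t = (u, true) → v (t + 1) = (w, false) → F.GV w → F.GAdj u w := by
    intro t u w h1 h2 hw'
    have := hfwd t
    rw [h1, h2] at this
    rcases this with ⟨-, h, -, -⟩ | ⟨-, -, h⟩ | ⟨-, -, h⟩ | ⟨h, -, -⟩
    · simp at h
    · exact h
    · exact absurd hw' (not_gv_of_eq h)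
    · simp [z] at h
  have hin : ∀ t u, v t = (u, false) → F.GV u → v (t + 1) = (u, true) := by
    intro t u h1 hu
    have := hfwd t
    rw [h1] at this
    rcases this with ⟨h, -, h', -⟩ | ⟨h, -, -⟩ | ⟨h, -, -⟩ | ⟨h, -, -⟩
    · exact Prod.ext h.symm h'
    · simp at h
    · simp at h
    · exact absurd hu (not_gv_of_eq h)
  refine ⟨_, NxSpec.sat (Nx := Nx) ⟨?_, ?_, ?_, ?_, ?_, ?_⟩⟩
  · rintro u w ⟨hu, hw', t, h1, h2⟩
    exact hff t u w h1 h2 hw'
  · rintro u u' w ⟨-, -, t, h1, h2⟩ ⟨-, -, t', h1', h2'⟩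
    have := hv (h2.trans h2'.symm)
    have := add_right_cancel this
    rw [this, h1'] at h1
    simpa using h1.symm
  · rintro u w w' ⟨-, -, t, h1, h2⟩ ⟨-, -, t', h1', h2'⟩
    have := hv (h1.trans h1'.symm)
    rw [this, h2'] at h2
    simpa using h2.symm
  · rintro u w ⟨hu, hw', t, h1, h2⟩ ⟨-, -, s, h3, h4⟩
    have e1 := hin _ _ h2 hw'
    have e2 : s = t + 1 + 1 := hv (h3.trans e1.symm)
    rw [e2] at h4
    have e3 := hin _ _ h4 hu
    have e4 : t + 1 + 1 + 1 + 1 = t := hv (e3.trans h1.symm)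
    have e5 : ((4 : ℕ) : ZMod k) = 0 := by
      have : t + 4 = t + 0 := by
        rw [add_zero]
        rw [← e4]
        conv_rhs => rw [← e4]
        ring
      have := add_left_cancel this
      exact_mod_cast this
    rw [ZMod.natCast_eq_zero_iff] at e5
    obtain ⟨r, hr⟩ := hodd
    have : k ≤ 4 := Nat.le_of_dvd (by norm_num) e5
    interval_cases k <;> omega
  · intro u hu
    obtain ⟨t, ht⟩ := hsurj' u true hu
    have := hfwd t
    rw [ht] at this
    rcases this with ⟨-, h, -, -⟩ | ⟨-, h1, h2⟩ | ⟨-, h, -⟩ | ⟨h, -, -⟩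
    · simp at h
    · exact Or.inl ⟨_, hu, h2.right, t, ht, Prod.ext rfl h1⟩
    · exact Or.inr h
    · simp [z] at h
  · intro w hw'
    obtain ⟨t, ht⟩ := hsurj' w false hw'
    have := hfwd (t - 1)
    rw [sub_add_cancel, ht] at this
    rcases this with ⟨-, -, h, -⟩ | ⟨h1, -, h2⟩ | ⟨-, -, h⟩ | ⟨-, -, h⟩
    · simp at h
    · exact Or.inl ⟨_, h2.left, hw', t - 1, Prod.ext rfl h1, by rw [sub_add_cancel, ht]⟩
    · exact absurd hw' (not_gv_of_eq h)
    · exact Or.inr h

end Frm

end Pool.Agent.H80.ENC
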