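import Mathlib
import Pool.Agent.H80.ENC.Sound

/-!
# Satisfying assignments give odd negative cycles
-/

namespace Pool.Agent.H80.ENC

theorem cycle_of_list {V : Type} (R : V → V → Prop) (l : List V) (h : 2 ≤ l.length)
    (hn : l.Nodup) (hc : l.IsChain R) (hcl : ∀ x ∈ l.getLast?, ∀ y ∈ l.head?, R x y) :
    ∃ v : ZMod l.length → V, Function.Injective v ∧ (∀ i, R (v i) (v (i + 1))) ∧
      ∀ x ∈ l, ∃ i, v i = x := by
  have hne : NeZero l.length := ⟨by omega⟩
  have hf : Fact (1 < l.length) := ⟨by omega⟩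
  refine ⟨fun i => l[i.val]'(ZMod.val_lt i), ?_, ?_, ?_⟩
  · intro i j hij
    have := (List.Nodup.getElem_inj_iff hn).mp hij
    exact ZMod.val_injective _ this
  · intro i
    have hi := ZMod.val_lt i
    have h1 : (i + 1).val = (i.val + 1) % l.length := by
      rw [ZMod.val_add, ZMod.val_one]
    by_cases h2 : i.val + 1 < l.length
    · have h3 : (i + 1).val = i.val + 1 := by rw [h1, Nat.mod_eq_of_lt h2]
      have := (List.isChain_iff_getElem.mp hc) i.val h2
      simp only [h3]
      exact this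
    · have h3 : (i + 1).val = 0 := by
        rw [h1, show i.val + 1 = l.length by omega, Nat.mod_self]
      simp only [h3]
      apply hcl
      · rw [List.getLast?_eq_getElem?]
        rw [List.getElem?_eq_getElem (by omega)]
        simp only [Option.mem_def, Option.some.injEq]
        congr 1
        omega
      · rw [List.head?_eq_getElem?, List.getElem?_eq_getElem (by omega)]
        rfl
  · intro x hx
    obtain ⟨i, hi, rfl⟩ := List.mem_iff_getElem.mp hx
    refine ⟨(i : ZMod l.length), ?_⟩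
    have : ((i : ℕ) : ZMod l.length).val = i := ZMod.val_natCast_of_lt hi
    simp only [this]

namespace Frm

variable {F : Frm} {σ : ℕ → Prop} {wit : ℕ → ℕ}

open Classical

/-- Position `p` of chain `i`, together with the detour that starts there. -/
noncomputable def piece (F : Frm) (wit : ℕ → ℕ) (i p : ℕ) : List (ℕ × ℕ) :=
  (i, p) :: if p % 3 = 2 ∧ p / 3 < F.m ∧ wit (p / 3) = i then [(F.n, p / 3)] else []

/-- The first `q` positions of chain `i`, from left to right. -/
noncomputable def lr (F : Frm) (wit : ℕ → ℕ) (i q : ℕ) : List (ℕ × ℕ) :=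
  (List.range q).flatMap (piece F wit i)

theorem lr_succ (i q : ℕ) : lr F wit i (q + 1) = lr F wit i q ++ piece F wit i q := by
  simp [lr, List.range_succ]

theorem getLast?_lr (i q : ℕ) :
    (lr F wit i (q + 1)).getLast? = some (if q % 3 = 2 ∧ q / 3 < F.m ∧ wit (q / 3) = i then
      (F.n, q / 3) else (i, q)) := by
  rw [lr_succ]
  unfold piece
  split_ifs with h <;> simp

theorem head?_lr (i q : ℕ) : (lr F wit i (q + 1)).head? = some (i, 0) := by
  induction q with
  | zero => simp [lr, piece]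
  | succ q ih =>
    rw [lr_succ, List.head?_append, ih]
    rfl

theorem chain_lr {R : ℕ × ℕ → ℕ × ℕ → Prop} {i : ℕ}
    (h1 : ∀ p, p + 1 < 3 * F.m + 3 → R (i, p) (i, p + 1))
    (h2 : ∀ j < F.m, wit j = i → R (i, 3 * j + 2) (F.n, j) ∧ R (F.n, j) (i, 3 * j + 3)) :
    ∀ q ≤ 3 * F.m + 3, (lr F wit i q).IsChain R := by
  intro q
  induction q with
  | zero => intro _; simp [lr]
  | succ q ih =>
    intro hq
    rw [lr_succ, List.isChain_append]
    refine ⟨ih (by omega), ?_, ?_⟩
    · unfold piece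
      split_ifs with h
      · obtain ⟨h3, h4, h5⟩ := h
        have := (h2 _ h4 h5).1
        rw [show 3 * (q / 3) + 2 = q by omega] at this
        simpa using this
      · simp
    · intro x hx y hy
      simp only [piece, List.head?_cons, Option.mem_def, Option.some.injEq] at hy
      subst hy
      obtain _ | q := q
      · simp [lr] at hx
      rw [getLast?_lr] at hx
      simp only [Option.mem_def, Option.some.injEq] at hx
      subst hx
      split_ifs with h
      · obtain ⟨h3, h4, h5⟩ := h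
        have := (h2 _ h4 h5).2
        rwa [show 3 * (q / 3) + 3 = q + 1 by omega] at this
      · exact h1 _ (by omega)

theorem mem_lr {i q : ℕ} {x : ℕ × ℕ} : x ∈ lr F wit i q ↔
    (x.1 = i ∧ x.2 < q) ∨ (x.1 = F.n ∧ x.2 < F.m ∧ wit x.2 = i ∧ 3 * x.2 + 2 < q) := by
  obtain ⟨a, b⟩ := x
  simp only [lr, List.mem_flatMap, List.mem_range, piece, List.mem_cons, Prod.mk.injEq]
  constructor
  · rintro ⟨p, hp, ⟨rfl, rfl⟩ | h⟩
    · exact Or.inl ⟨rfl, hp⟩
    · split_ifs at h with h'
      · simp only [List.mem_singleton, Prod.mk.injEq] at h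
        obtain ⟨rfl, rfl⟩ := h
        exact Or.inr ⟨rfl, h'.2.1, h'.2.2, by omega⟩
      · simp at h
  · rintro (⟨rfl, h⟩ | ⟨rfl, h1, h2, h3⟩)
    · exact ⟨b, h, Or.inl ⟨rfl, rfl⟩⟩
    · refine ⟨3 * b + 2, h3, Or.inr ?_⟩
      have e : (3 * b + 2) / 3 = b := by omega
      rw [e, if_pos ⟨by omega, h1, h2⟩]
      simp

theorem nodup_lr {i : ℕ} (hi : i < F.n) (q : ℕ) : (lr F wit i q).Nodup := by
  induction q with
  | zero => simp [lr]
  | succ q ih =>
    rw [lr_succ, List.nodup_append]
    refine ⟨ih, ?_, ?_⟩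
    · unfold piece
      split_ifs with h
      · simp
        omega
      · simp
    · intro x hx y hy hxy
      subst hxy
      rw [mem_lr] at hx
      unfold piece at hy
      obtain ⟨a, b⟩ := x
      simp only [List.mem_cons, Prod.mk.injEq] at hy
      simp only at hx
      rcases hy with hy | hy
      · omega
      · split_ifs at hy with h
        · simp only [List.mem_singleton, Prod.mk.injEq] at hy
          omega
        · simp at hy

/-- Chain `i`, in the direction given by `σ`. -/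
noncomputable def blk (F : Frm) (σ : ℕ → Prop) (wit : ℕ → ℕ) (i : ℕ) : List (ℕ × ℕ) :=
  if σ i then lr F wit i (3 * F.m + 3) else (lr F wit i (3 * F.m + 3)).reverse

theorem mem_blk {i : ℕ} {x : ℕ × ℕ} : x ∈ blk F σ wit i ↔
    (x.1 = i ∧ x.2 < 3 * F.m + 3) ∨ (x.1 = F.n ∧ x.2 < F.m ∧ wit x.2 = i) := by
  have : x ∈ blk F σ wit i ↔ x ∈ lr F wit i (3 * F.m + 3) := by
    unfold blk
    split_ifs <;> simp
  rw [this, mem_lr]
  constructor
  · rintro (h | ⟨h1, h2, h3, h4⟩)
    · exact Or.inl h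
    · exact Or.inr ⟨h1, h2, h3⟩
  · rintro (h | ⟨h1, h2, h3⟩)
    · exact Or.inl h
    · exact Or.inr ⟨h1, h2, h3, by omega⟩

theorem nodup_blk {i : ℕ} (hi : i < F.n) : (blk F σ wit i).Nodup := by
  unfold blk
  split_ifs
  · exact nodup_lr hi _
  · exact List.nodup_reverse.mpr (nodup_lr hi _)

theorem last_lr (i : ℕ) : (lr F wit i (3 * F.m + 3)).getLast? = some (i, 3 * F.m + 2) := by
  rw [getLast?_lr, if_neg (by omega)]

theorem head_blk {i : ℕ} {x : ℕ × ℕ} (hx : x ∈ (blk F σ wit i).head?) :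
    x.1 = i ∧ F.IsEnd x.2 := by
  unfold blk at hx
  split_ifs at hx
  · rw [head?_lr] at hx
    simp only [Option.mem_def, Option.some.injEq] at hx
    subst hx
    exact ⟨rfl, Or.inl rfl⟩
  · rw [List.head?_reverse, last_lr] at hx
    simp only [Option.mem_def, Option.some.injEq] at hx
    subst hx
    exact ⟨rfl, Or.inr rfl⟩

theorem last_blk {i : ℕ} {x : ℕ × ℕ} (hx : x ∈ (blk F σ wit i).getLast?) :
    x.1 = i ∧ F.IsEnd x.2 := by
  unfold blk at hx
  split_ifs at hx
  · rw [last_lr] at hx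
    simp only [Option.mem_def, Option.some.injEq] at hx
    subst hx
    exact ⟨rfl, Or.inr rfl⟩
  · rw [List.getLast?_reverse, head?_lr] at hx
    simp only [Option.mem_def, Option.some.injEq] at hx
    subst hx
    exact ⟨rfl, Or.inl rfl⟩

theorem blk_ne_nil (i : ℕ) : blk F σ wit i ≠ [] := by
  intro h
  have : (i, 0) ∈ blk F σ wit i := mem_blk.mpr (Or.inl ⟨rfl, by simp only; omega⟩)
  rw [h] at this
  simp at this

theorem chain_blk {i : ℕ} (hi : i < F.n)
    (hw : ∀ j < F.m, (F.pos (wit j) j = true ∧ σ (wit j)) ∨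
      (F.neg (wit j) j = true ∧ ¬ σ (wit j))) :
    (blk F σ wit i).IsChain F.GAdj := by
  unfold blk
  split_ifs with hσ
  · apply chain_lr _ _ _ le_rfl
    · intro p hp
      exact Or.inl ⟨hi, rfl, by simp only; omega, hp, Or.inl rfl⟩
    · rintro j hj rfl
      rcases hw j hj with ⟨h, -⟩ | ⟨-, h⟩
      · exact ⟨Or.inr (Or.inr (Or.inl ⟨hi, rfl, hj, Or.inl ⟨h, rfl⟩⟩)),
          Or.inr (Or.inr (Or.inr ⟨rfl, hj, hi, Or.inl ⟨h, rfl⟩⟩))⟩
      · exact absurd hσ h
  · rw [List.isChain_reverse]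
    apply chain_lr _ _ _ le_rfl
    · intro p hp
      exact Or.inl ⟨hi, rfl, hp, by simp only; omega, Or.inr rfl⟩
    · rintro j hj rfl
      rcases hw j hj with ⟨-, h⟩ | ⟨h, -⟩
      · exact absurd h hσ
      · exact ⟨Or.inr (Or.inr (Or.inr ⟨rfl, hj, hi, Or.inr ⟨h, rfl⟩⟩)),
          Or.inr (Or.inr (Or.inl ⟨hi, rfl, hj, Or.inr ⟨h, rfl⟩⟩))⟩

/-- The Hamiltonian path, up to chain `q`. -/
noncomputable def ham (F : Frm) (σ : ℕ → Prop) (wit : ℕ → ℕ) (q : ℕ) : List (ℕ × ℕ) :=
  (List.range q).flatMap (blk F σ wit)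

theorem ham_succ (q : ℕ) : ham F σ wit (q + 1) = ham F σ wit q ++ blk F σ wit q := by
  simp [ham, List.range_succ]

theorem last_ham {q : ℕ} {x : ℕ × ℕ} (hx : x ∈ (ham F σ wit (q + 1)).getLast?) :
    x.1 = q ∧ F.IsEnd x.2 := by
  rw [ham_succ, List.getLast?_append_of_ne_nil _ (blk_ne_nil q)] at hx
  exact last_blk hx

theorem head_ham {q : ℕ} {x : ℕ × ℕ} (hx : x ∈ (ham F σ wit (q + 1)).head?) :
    x.1 = 0 ∧ F.IsEnd x.2 := by
  induction q with
  | zero =>
    have : ham F σ wit (0 + 1) = blk F σ wit 0 := by simp [ham]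
    rw [this] at hx
    exact head_blk hx
  | succ q ih =>
    apply ih
    rw [ham_succ, List.head?_append_of_ne_nil _ (by
      rw [ham_succ]
      intro h
      exact blk_ne_nil q (List.append_eq_nil_iff.mp h).2)] at hx
    exact hx

theorem chain_ham (hw : ∀ j < F.m, (F.pos (wit j) j = true ∧ σ (wit j)) ∨
      (F.neg (wit j) j = true ∧ ¬ σ (wit j))) {q : ℕ} (hq : q ≤ F.n) :
    (ham F σ wit q).IsChain F.GAdj := by
  induction q with
  | zero => simp [ham]
  | succ q ih =>
    rw [ham_succ, List.isChain_append]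
    refine ⟨ih (by omega), chain_blk (by omega) hw, ?_⟩
    intro x hx y hy
    obtain _ | q := q
    · simp [ham] at hx
    have h1 := last_ham hx
    have h2 := head_blk hy
    exact Or.inr (Or.inl ⟨by omega, by omega, h1.2, h2.2⟩)

theorem mem_ham {q : ℕ} {x : ℕ × ℕ} : x ∈ ham F σ wit q ↔
    (x.1 < q ∧ x.2 < 3 * F.m + 3) ∨ (x.1 = F.n ∧ x.2 < F.m ∧ wit x.2 < q) := by
  simp only [ham, List.mem_flatMap, List.mem_range, mem_blk]
  constructor
  · rintro ⟨i, hi, ⟨rfl, h⟩ | ⟨h1, h2, rfl⟩⟩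
    · exact Or.inl ⟨hi, h⟩
    · exact Or.inr ⟨h1, h2, hi⟩
  · rintro (⟨h1, h2⟩ | ⟨h1, h2, h3⟩)
    · exact ⟨_, h1, Or.inl ⟨rfl, h2⟩⟩
    · exact ⟨_, h3, Or.inr ⟨h1, h2, rfl⟩⟩

theorem nodup_ham {q : ℕ} (hq : q ≤ F.n) : (ham F σ wit q).Nodup := by
  induction q with
  | zero => simp [ham]
  | succ q ih =>
    rw [ham_succ, List.nodup_append]
    refine ⟨ih (by omega), nodup_blk (by omega), ?_⟩
    intro x hx y hy hxy
    subst hxy
    rw [mem_ham] at hx
    rw [mem_blk] at hy
    omega

/-- Doubling of the vertices. -/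
def dbl (l : List (ℕ × ℕ)) : List Nm := l.flatMap (fun v => [(v, false), (v, true)])

theorem length_dbl (l : List (ℕ × ℕ)) : (dbl l).length = 2 * l.length := by
  induction l with
  | nil => rfl
  | cons a l ih =>
    simp only [dbl, List.flatMap_cons, List.length_append, List.length_cons,
      List.length_nil] at ih ⊢
    omega

theorem mem_dbl {l : List (ℕ × ℕ)} {x : Nm} : x ∈ dbl l ↔ x.1 ∈ l := by
  obtain ⟨v, b⟩ := x
  simp only [dbl, List.mem_flatMap, List.mem_cons, Prod.mk.injEq, List.not_mem_nil, or_false]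
  constructor
  · rintro ⟨a, ha, ⟨rfl, -⟩ | ⟨rfl, -⟩⟩ <;> exact ha
  · intro h
    refine ⟨v, h, ?_⟩
    cases b <;> simp

theorem nodup_dbl {l : List (ℕ × ℕ)} (h : l.Nodup) : (dbl l).Nodup := by
  induction l with
  | nil => simp [dbl]
  | cons a l ih =>
    rw [List.nodup_cons] at h
    have : dbl (a :: l) = [(a, false), (a, true)] ++ dbl l := rfl
    rw [this, List.nodup_append]
    refine ⟨by simp, ih h.2, ?_⟩
    intro x hx y hy hxy
    subst hxy
    rw [mem_dbl] at hy
    simp only [List.mem_cons, List.not_mem_nil, or_false] at hx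
    rcases hx with rfl | rfl <;> exact h.1 hy

theorem head_dbl {l : List (ℕ × ℕ)} {x : Nm} (hx : x ∈ (dbl l).head?) :
    x.2 = false ∧ x.1 ∈ l.head? := by
  cases l with
  | nil => simp [dbl] at hx
  | cons a l =>
    simp only [dbl, List.flatMap_cons, List.cons_append, List.head?_cons, Option.mem_def,
      Option.some.injEq] at hx
    subst hx
    simp

theorem last_dbl {l : List (ℕ × ℕ)} {x : Nm} (hx : x ∈ (dbl l).getLast?) :
    x.2 = true ∧ x.1 ∈ l.getLast? := by
  rcases List.eq_nil_or_concat l with rfl | ⟨l, a, rfl⟩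
  · simp [dbl] at hx
  · have : dbl (l ++ [a]) = (dbl l ++ [(a, false)]) ++ [(a, true)] := by
      simp [dbl]
    rw [List.concat_eq_append] at hx
    rw [this, List.getLast?_append_of_ne_nil _ (by simp)] at hx
    simp only [List.getLast?_singleton, Option.mem_def, Option.some.injEq] at hx
    subst hx
    simp

theorem chain_dbl {l : List (ℕ × ℕ)} (h : l.IsChain F.GAdj) (hl : ∀ x ∈ l, F.GV x) :
    (dbl l).IsChain F.Fwd := by
  induction l with
  | nil => simp [dbl]
  | cons a l ih =>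
    have : dbl (a :: l) = [(a, false), (a, true)] ++ dbl l := rfl
    rw [this, List.isChain_append]
    refine ⟨?_, ih (List.IsChain.tail h) (fun x hx => hl x (List.mem_cons_of_mem _ hx)), ?_⟩
    · have : F.Fwd (a, false) (a, true) :=
        Or.inl ⟨rfl, rfl, rfl, hl a (List.mem_cons_self)⟩
      simpa using this
    · intro x hx y hy
      simp only [List.getLast?_cons_cons, List.getLast?_singleton, Option.mem_def,
        Option.some.injEq] at hx
      subst hx
      have h1 := head_dbl hy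
      cases l with
      | nil => simp at h1
      | cons b l =>
        simp only [List.head?_cons, Option.mem_def, Option.some.injEq] at h1
        rw [List.isChain_cons_cons] at h
        refine Or.inr (Or.inl ⟨rfl, h1.1, ?_⟩)
        simp only
        rw [← h1.2]
        exact h.1

theorem complete (hn : 0 < F.n) (hσ : F.Satisfied σ) :
    ∃ (k : ℕ) (_ : NeZero k) (v : ZMod k → Nm), 2 ≤ k ∧ Function.Injective v ∧
      (∀ i, F.Fwd (v i) (v (i + 1))) ∧ Odd k ∧ ∑ i, F.hw (v i) (v (i + 1)) < 0 := by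
  have hw : ∀ j, ∃ i, j < F.m → i < F.n ∧ ((F.pos i j = true ∧ σ i) ∨
      (F.neg i j = true ∧ ¬ σ i)) := by
    intro j
    by_cases hj : j < F.m
    · obtain ⟨i, hi⟩ := hσ j hj
      exact ⟨i, fun _ => hi⟩
    · exact ⟨0, fun h => absurd h hj⟩
  choose wit hwit using hw
  have hwit1 : ∀ j < F.m, wit j < F.n := fun j hj => (hwit j hj).1
  have hwit2 : ∀ j < F.m, (F.pos (wit j) j = true ∧ σ (wit j)) ∨
      (F.neg (wit j) j = true ∧ ¬ σ (wit j)) := fun j hj => (hwit j hj).2
  obtain ⟨n', hn'⟩ : ∃ n', F.n = n' + 1 := ⟨F.n - 1, by omega⟩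
  set L := ham F σ wit F.n with hL
  have hmem : ∀ x, x ∈ L ↔ F.GV x := by
    intro x
    rw [hL, mem_ham, GV]
    constructor
    · rintro (h | ⟨h1, h2, h3⟩)
      · exact Or.inl h
      · exact Or.inr ⟨h1, h2⟩
    · rintro (h | ⟨h1, h2⟩)
      · exact Or.inl h
      · exact Or.inr ⟨h1, h2, hwit1 _ h2⟩
  have hnd : L.Nodup := nodup_ham le_rfl
  have hlen : L.length = F.N := by
    rw [← card_gvF, ← List.toFinset_card_of_nodup hnd]
    congr 1
    ext x
    rw [List.mem_toFinset, hmem, mem_gvF]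
  have hNpos : 0 < F.N := by
    unfold N
    have : 0 < F.n * (3 * F.m + 3) := Nat.mul_pos hn (by omega)
    omega
  set H : List Nm := F.z :: dbl L with hH
  have hHlen : H.length = 2 * F.N + 1 := by
    rw [hH, List.length_cons, length_dbl, hlen]
  have hHnd : H.Nodup := by
    rw [hH, List.nodup_cons]
    refine ⟨?_, nodup_dbl hnd⟩
    rw [mem_dbl, hmem]
    exact z_not_gv
  have hch : H.IsChain F.Fwd := by
    rw [hH, List.isChain_cons]
    refine ⟨?_, chain_dbl (chain_ham hwit2 le_rfl) (fun x hx => (hmem x).mp hx)⟩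
    intro y hy
    have h1 := head_dbl hy
    rw [hL, hn'] at h1
    have h2 := head_ham h1.2
    exact Or.inr (Or.inr (Or.inr ⟨rfl, h1.1, h2.1, hn, h2.2⟩))
  have hcl : ∀ x ∈ H.getLast?, ∀ y ∈ H.head?, F.Fwd x y := by
    intro x hx y hy
    simp only [hH, List.head?_cons, Option.mem_def, Option.some.injEq] at hy
    subst hy
    have hne : dbl L ≠ [] := by
      intro h
      have := length_dbl L
      rw [h, hlen, List.length_nil] at this
      omega
    have hx' : x ∈ (dbl L).getLast? := by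
      rw [hH, List.getLast?_cons] at hx
      cases h : (dbl L).getLast? with
      | none => exact absurd (List.getLast?_eq_none_iff.mp h) hne
      | some a => rw [h] at hx; simpa using hx
    have h1 := last_dbl hx'
    rw [hL, hn'] at h1
    have h2 := last_ham h1.2
    exact Or.inr (Or.inr (Or.inl ⟨h1.1, ⟨by omega, h2.2⟩, rfl⟩))
  obtain ⟨v, hv1, hv2, hv3⟩ := cycle_of_list F.Fwd H (by omega) hHnd hch hcl
  have hne : NeZero H.length := ⟨by omega⟩
  refine ⟨H.length, hne, v, by omega, hv1, hv2, ⟨F.N, hHlen⟩, ?_⟩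
  obtain ⟨i0, hi0⟩ := hv3 F.z (by simp [hH])
  have hw1 : ∀ i, F.hw (v i) (v (i + 1)) = if v i = F.z then (2 * F.N - 1 : ℤ) else -1 := by
    intro i
    simp [hw, hv2 i]
  rw [← Finset.add_sum_erase Finset.univ _ (Finset.mem_univ i0), hw1, if_pos hi0]
  have : ∑ j ∈ Finset.univ.erase i0, F.hw (v j) (v (j + 1)) =
      ∑ j ∈ Finset.univ.erase i0, (-1 : ℤ) := by
    refine Finset.sum_congr rfl fun j hj => ?_
    rw [hw1, if_neg]
    intro h
    exact (Finset.ne_of_mem_erase hj) (hv1 (h.trans hi0.symm))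
  rw [this, Finset.sum_const, Finset.card_erase_of_mem (Finset.mem_univ _), Finset.card_univ,
    ZMod.card, hHlen]
  simp only [nsmul_eq_mul, mul_neg, mul_one]
  push_cast
  simp

end Frm

end Pool.Agent.H80.ENC
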