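import Mathlib
import Pool.Agent.PPS.Bits
import Pool.Agent.H64.Cook.Defs

/-!
# Even-nearly conservative arc weights
-/

namespace Pool.Agent.H80.ENC

open Pool.Agent.PPS

/-- `v` is a directed cycle of length `k ≥ 2` of the digraph `D`: the `k` vertices `v 0, …, v (k-1)`
are distinct and there is an arc from `v i` to `v (i + 1)` for all `i` (indices modulo `k`). -/
def IsCycle {V : Type} (D : Digraph V) (k : ℕ) (v : ZMod k → V) : Prop :=
  2 ≤ k ∧ Function.Injective v ∧ ∀ i, D.Adj (v i) (v (i + 1))

/-- The weight of the cycle `v` of length `k`: the sum of the weights of its `k` arcs. -/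
def cycleWeight {V : Type} (c : V → V → ℚ) (k : ℕ) [NeZero k] (v : ZMod k → V) : ℚ :=
  ∑ i, c (v i) (v (i + 1))

/-- The arc weights `c` are even-nearly conservative on `D`: every negative cycle of `D` has an
even number of arcs. -/
def EvenNearlyConservative {V : Type} (D : Digraph V) (c : V → V → ℚ) : Prop :=
  ∀ (k : ℕ) [NeZero k] (v : ZMod k → V), IsCycle D k v → cycleWeight c k v < 0 → Even k

/-- The digraph `D` is symmetric. -/
def IsSymmetric {V : Type} (D : Digraph V) : Prop := ∀ u v, D.Adj u v → D.Adj v u

/-- A rational number in binary: sign (`true` for minus), numerator and denominator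
(`val` is the value of a word in binary, least significant bit first). -/
abbrev BinRat := Bool × (List Bool × List Bool)

/-- The rational number with the given binary representation. -/
def BinRat.toRat (q : BinRat) : ℚ :=
  (if q.1 then -1 else 1) * (val q.2.1 : ℚ) / (val q.2.2 : ℚ)

/-- An instance: the number `n` of vertices and the list of arcs, with their weights in binary.
The vertices are `0, …, n - 1`. -/
abbrev Inst := ℕ × List ((ℕ × ℕ) × BinRat)

/-- The instance describes a weighted digraph without loops and without parallel arcs. -/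
structure Valid (I : Inst) : Prop where
  lt : ∀ a ∈ I.2, a.1.1 < I.1 ∧ a.1.2 < I.1
  ne : ∀ a ∈ I.2, a.1.1 ≠ a.1.2
  nodup : (I.2.map Prod.fst).Nodup
  den : ∀ a ∈ I.2, val a.2.2.2 ≠ 0

/-- The digraph of an instance. -/
def digraph (I : Inst) : Digraph (Fin I.1) where
  Adj u v := ∃ q, (((u : ℕ), (v : ℕ)), q) ∈ I.2

/-- The arc weights of an instance. -/
def weight (I : Inst) (u v : Fin I.1) : ℚ :=
  ((I.2.lookup ((u : ℕ), (v : ℕ))).map BinRat.toRat).getD 0

/-- All weights are integers of absolute value at most the number of vertices. -/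
def SmallIntegral (I : Inst) : Prop :=
  ∀ a ∈ I.2, ∃ z : ℤ, a.2.toRat = z ∧ |z| ≤ I.1

end Pool.Agent.H80.ENC
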