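import Mathlib
import Pool.Agent.H80.ENC.Complete
import Pool.Agent.H80.ENC.Defs
import Pool.Agent.H64.Cook.Tableau

/-!
# The instance of a formula
-/

namespace Pool.Agent.H80.ENC

open Pool.Agent.PPS Pool.Agent.H64.Cook

/-! ### Instances with named vertices -/

/-- A default name. -/
def d0 : Nm := ((0, 0), false)

/-- The instance with vertex names `NL`. -/
def mkInst (NL : List Nm) (adj : Nm → Nm → Bool) (wt : Nm → Nm → BinRat) : Inst :=
  (NL.length,
    (((List.range NL.length).flatMap fun x => (List.range NL.length).map fun y => (x, y)).filter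
      (fun e => adj (NL.getD e.1 d0) (NL.getD e.2 d0))).map
      (fun e => (e, wt (NL.getD e.1 d0) (NL.getD e.2 d0))))

section

variable {NL : List Nm} {adj : Nm → Nm → Bool} {wt : Nm → Nm → BinRat}

theorem mem_mkInst {x y : ℕ} {q : BinRat} : ((x, y), q) ∈ (mkInst NL adj wt).2 ↔
    x < NL.length ∧ y < NL.length ∧ adj (NL.getD x d0) (NL.getD y d0) = true ∧
      q = wt (NL.getD x d0) (NL.getD y d0) := by
  simp only [mkInst, List.mem_map, List.mem_filter, List.mem_flatMap, List.mem_range,
    Prod.mk.injEq]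
  constructor
  · rintro ⟨⟨a, b⟩, ⟨⟨a', ha', b', hb', h1⟩, h2⟩, h3, rfl⟩
    simp only [Prod.mk.injEq] at h1 h3
    obtain ⟨rfl, rfl⟩ := h1
    obtain ⟨rfl, rfl⟩ := h3
    exact ⟨ha', hb', h2, rfl⟩
  · rintro ⟨h1, h2, h3, rfl⟩
    exact ⟨(x, y), ⟨⟨x, h1, y, h2, rfl⟩, h3⟩, rfl, rfl⟩

theorem lookup_map {α β : Type} [BEq α] [LawfulBEq α] (w : α → β) {l : List α} {e : α}
    (he : e ∈ l) : (l.map (fun e => (e, w e))).lookup e = some (w e) := by
  induction l with
  | nil => simp at he
  | cons a l ih =>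
    rw [List.map_cons, List.lookup_cons]
    cases h : e == a with
    | true =>
      have := eq_of_beq h
      subst this
      rfl
    | false =>
      have h' : e ≠ a := by simpa using h
      rcases List.mem_cons.mp he with h1 | h1
      · exact absurd h1 h'
      · exact ih h1

theorem weight_mkInst {x y : Fin (mkInst NL adj wt).1}
    (h : adj (NL.getD x d0) (NL.getD y d0) = true) :
    weight (mkInst NL adj wt) x y = (wt (NL.getD x d0) (NL.getD y d0)).toRat := by
  unfold weight
  have hx : (x : ℕ) < NL.length := x.2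
  have hy : (y : ℕ) < NL.length := y.2
  have : (mkInst NL adj wt).2.lookup ((x : ℕ), (y : ℕ)) =
      some (wt (NL.getD x d0) (NL.getD y d0)) := by
    unfold mkInst
    refine lookup_map (w := fun e : ℕ × ℕ => wt (NL.getD e.1 d0) (NL.getD e.2 d0)) ?_
    rw [List.mem_filter]
    refine ⟨?_, h⟩
    simp only [List.mem_flatMap, List.mem_range, List.mem_map]
    exact ⟨x, hx, y, hy, rfl⟩
  rw [this]
  rfl

theorem adj_mkInst {x y : Fin (mkInst NL adj wt).1} :
    (digraph (mkInst NL adj wt)).Adj x y ↔ adj (NL.getD x d0) (NL.getD y d0) = true := by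
  constructor
  · rintro ⟨q, hq⟩
    exact (mem_mkInst.mp hq).2.2.1
  · intro h
    exact ⟨_, mem_mkInst.mpr ⟨x.2, y.2, h, rfl⟩⟩

theorem valid_mkInst (hirr : ∀ x, adj x x = false) (hden : ∀ x y, val (wt x y).2.2 ≠ 0) :
    Valid (mkInst NL adj wt) where
  lt := by
    rintro ⟨⟨x, y⟩, q⟩ h
    have := mem_mkInst.mp h
    exact ⟨this.1, this.2.1⟩
  ne := by
    rintro ⟨⟨x, y⟩, q⟩ h
    have := mem_mkInst.mp h
    simp only
    rintro rfl
    rw [hirr] at this
    simp at this
  nodup := by
    unfold mkInst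
    rw [List.map_map]
    have : (Prod.fst ∘ fun e : ℕ × ℕ => (e, wt (NL.getD e.1 d0) (NL.getD e.2 d0))) = id := rfl
    rw [this, List.map_id]
    apply List.Nodup.filter
    exact List.Nodup.product List.nodup_range List.nodup_range
  den := by
    rintro ⟨⟨x, y⟩, q⟩ h
    have := mem_mkInst.mp h
    simp only
    rw [this.2.2.2]
    exact hden _ _

theorem symm_mkInst (hs : ∀ x y, adj x y = true → adj y x = true) :
    IsSymmetric (digraph (mkInst NL adj wt)) := by
  intro u v h
  rw [adj_mkInst] at h ⊢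
  exact hs _ _ h

theorem small_mkInst (h : ∀ x y, ∃ z : ℤ, (wt x y).toRat = z ∧ |z| ≤ NL.length) :
    SmallIntegral (mkInst NL adj wt) := by
  rintro ⟨⟨x, y⟩, q⟩ hq
  have := mem_mkInst.mp hq
  simp only
  rw [this.2.2.2]
  exact h _ _

theorem cycle_of_mkInst (hnd : NL.Nodup) {k : ℕ} [NeZero k]
    {v : ZMod k → Fin (mkInst NL adj wt).1} (hv : IsCycle (digraph (mkInst NL adj wt)) k v) :
    ∃ v' : ZMod k → Nm, Function.Injective v' ∧ (∀ i, adj (v' i) (v' (i + 1)) = true) ∧
      cycleWeight (weight (mkInst NL adj wt)) k v =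
        ∑ i, (wt (v' i) (v' (i + 1))).toRat := by
  obtain ⟨-, hinj, hadj⟩ := hv
  refine ⟨fun i => NL.getD (v i) d0, ?_, ?_, ?_⟩
  · intro i j hij
    have hi : ((v i : ℕ)) < NL.length := (v i).2
    have hj : ((v j : ℕ)) < NL.length := (v j).2
    simp only [List.getD_eq_getElem?_getD, List.getElem?_eq_getElem hi,
      List.getElem?_eq_getElem hj, Option.getD_some] at hij
    have := (List.Nodup.getElem_inj_iff hnd).mp hij
    exact hinj (Fin.ext this)
  · intro i
    exact adj_mkInst.mp (hadj i)
  · unfold cycleWeight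
    refine Finset.sum_congr rfl fun i _ => ?_
    exact weight_mkInst (adj_mkInst.mp (hadj i))

theorem mkInst_of_cycle {k : ℕ} [NeZero k] (hk : 2 ≤ k)
    {v' : ZMod k → Nm} (hinj : Function.Injective v') (hmem : ∀ i, v' i ∈ NL)
    (hadj : ∀ i, adj (v' i) (v' (i + 1)) = true) :
    ∃ v : ZMod k → Fin (mkInst NL adj wt).1, IsCycle (digraph (mkInst NL adj wt)) k v ∧
      cycleWeight (weight (mkInst NL adj wt)) k v =
        ∑ i, (wt (v' i) (v' (i + 1))).toRat := by
  have h1 : ∀ i, ∃ x : Fin (mkInst NL adj wt).1, NL.getD x d0 = v' i := by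
    intro i
    obtain ⟨n, hn, h⟩ := List.mem_iff_getElem.mp (hmem i)
    refine ⟨⟨n, hn⟩, ?_⟩
    simp only [List.getD_eq_getElem?_getD, List.getElem?_eq_getElem hn, Option.getD_some]
    exact h
  choose v hv using h1
  have hadj' : ∀ i, adj (NL.getD (v i) d0) (NL.getD (v (i + 1)) d0) = true := by
    intro i
    rw [hv, hv]
    exact hadj i
  refine ⟨v, ⟨hk, ?_, ?_⟩, ?_⟩
  · intro i j hij
    apply hinj
    rw [← hv i, ← hv j, hij]
  · intro i
    exact adj_mkInst.mpr (hadj' i)
  · unfold cycleWeight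
    refine Finset.sum_congr rfl fun i _ => ?_
    rw [weight_mkInst (hadj' i), hv, hv]

end

/-! ### Formulas -/

/-- Formulas in conjunctive normal form. -/
abbrev CNF := List (List (Bool × Vr))

/-- A default variable. -/
def v0 : Vr := (0, (0, (0, 0)))

/-- The list of the variables of `φ`, with repetitions. -/
def vs (φ : CNF) : List Vr := v0 :: φ.flatten.map (fun l => l.2)

/-- Variable number `i` is a first occurrence and occurs in clause `j` with sign `b`. -/
def litB (φ : CNF) (b : Bool) (i j : ℕ) : Bool :=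
  decide ((b, (vs φ).getD i v0) ∈ φ.getD j []) && !decide ((vs φ).getD i v0 ∈ (vs φ).take i)

/-- The data of a formula. -/
def toFrm (φ : CNF) : Frm where
  n := (vs φ).length
  m := φ.length
  pos i j := litB φ true i j
  neg i j := litB φ false i j

theorem exists_first {α : Type} (d : α) {l : List α} {a : α} (h : a ∈ l) :
    ∃ i < l.length, l.getD i d = a ∧ a ∉ l.take i := by
  induction l with
  | nil => simp at h
  | cons b l ih =>
    by_cases hab : a = b
    · subst hab
      exact ⟨0, by simp, rfl, by simp⟩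
    · rcases List.mem_cons.mp h with h | h
      · exact absurd h hab
      obtain ⟨i, h1, h2, h3⟩ := ih h
      refine ⟨i + 1, by simpa using h1, by simpa using h2, ?_⟩
      rw [List.take_succ_cons, List.mem_cons]
      push Not
      exact ⟨hab, h3⟩

theorem first_unique {α : Type} (d : α) {l : List α} {a : α} {i j : ℕ} (hi : i < l.length)
    (hij : i < j) (h1 : l.getD i d = a) (h2 : a ∉ l.take j) : False := by
  apply h2
  rw [List.getD_eq_getElem _ _ hi] at h1
  subst h1
  rw [List.mem_take_iff_getElem]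
  exact ⟨i, by omega, rfl⟩

theorem sat_iff (φ : CNF) : Sat φ ↔ ∃ σ, (toFrm φ).Satisfied σ := by
  classical
  constructor
  · rintro ⟨σ, hσ⟩
    refine ⟨fun i => σ ((vs φ).getD i v0) = true, ?_⟩
    intro j hj
    have hj' : j < φ.length := hj
    have hC : φ.getD j [] ∈ φ := by
      rw [List.getD_eq_getElem _ _ hj']
      exact List.getElem_mem _
    obtain ⟨⟨b, v⟩, hl, h⟩ := hσ _ hC
    have hv : v ∈ vs φ := by
      unfold vs
      refine List.mem_cons_of_mem _ (List.mem_map.mpr ⟨(b, v), ?_, rfl⟩)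
      exact List.mem_flatten.mpr ⟨_, hC, hl⟩
    obtain ⟨i, h1, h2, h3⟩ := exists_first v0 hv
    refine ⟨i, h1, ?_⟩
    simp only at h
    have hlit : litB φ b i j = true := by
      unfold litB
      rw [h2, decide_eq_true hl, decide_eq_false h3]
      rfl
    cases b with
    | true => exact Or.inl ⟨hlit, by simp only; rw [h2, h]⟩
    | false => exact Or.inr ⟨hlit, by simp only; rw [h2, h]; simp⟩
  · rintro ⟨σ, hσ⟩
    refine ⟨fun v => decide (∃ i < (vs φ).length, (vs φ).getD i v0 = v ∧ v ∉ (vs φ).take i ∧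
      σ i), ?_⟩
    intro C hC
    obtain ⟨j, hj, rfl⟩ := List.mem_iff_getElem.mp hC
    obtain ⟨i, hi, h⟩ := hσ j hj
    have hi' : i < (vs φ).length := hi
    have e : φ.getD j [] = φ[j] := List.getD_eq_getElem _ _ hj
    rcases h with ⟨h1, h2⟩ | ⟨h1, h2⟩
    · have h1' : litB φ true i j = true := h1
      unfold litB at h1'
      rw [e] at h1'
      simp only [Bool.and_eq_true, decide_eq_true_eq, Bool.not_eq_true', decide_eq_false_iff_not]
        at h1'
      exact ⟨_, h1'.1, by simpa using ⟨i, hi', rfl, h1'.2, h2⟩⟩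
    · have h1' : litB φ false i j = true := h1
      unfold litB at h1'
      rw [e] at h1'
      simp only [Bool.and_eq_true, decide_eq_true_eq, Bool.not_eq_true', decide_eq_false_iff_not]
        at h1'
      refine ⟨_, h1'.1, ?_⟩
      simp only [decide_eq_false_iff_not]
      rintro ⟨i', h3, h4, h5, h6⟩
      rcases lt_trichotomy i i' with h7 | rfl | h7
      · exact first_unique v0 hi' h7 rfl h5
      · exact h2 h6
      · exact first_unique v0 h3 h7 h4 h1'.2

end Pool.Agent.H80.ENC
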