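import Mathlib
import Pool.Agent.H80.ENC.Coding

/-!
# The reduction from satisfiability, and its running time
-/

namespace Pool.Agent.H80.ENC

open Pool.Agent.PPS Pool.Agent.H64.Cook

variable {m : Bool} {α : Type} [Rep α]

/-! ### Binary numbers -/

/-- The number `t` in binary. -/
def bn (t : ℕ) : List Bool := bits t t

theorem val_bn (t : ℕ) : val (bn t) = t := by
  unfold bn
  rw [val_bits]
  exact Nat.mod_eq_of_lt Nat.lt_two_pow_self

theorem bits_iterate (n t : ℕ) : inc^[t] (List.replicate n false) = bits n t := by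
  induction t with
  | zero =>
    symm
    rw [Function.iterate_zero, id]
    exact bits_eq_replicate.mpr (Nat.zero_mod _)
  | succ t ih => rw [Function.iterate_succ_apply', ih, inc_bits]

@[fun_prop]
theorem PT.bn' {t : α → ℕ} (ht : PT m t) : PT m (fun a => bn (t a)) := by
  obtain ⟨p, hp⟩ := ht.exists_size_le
  have := PT.iterate (m := m) (s := fun z : α × List Bool => inc z.2)
    (ini := fun a => List.replicate (t a) false) ht (by fun_prop) (by fun_prop) (4 * p + 1) (by
      intro a k _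
      have h1 : (fun y => inc y)^[k] (List.replicate (t a) false) = bits (t a) k :=
        bits_iterate (t a) k
      simp only
      rw [h1]
      have h2 := (size_bits (bits (t a) k)).2
      rw [length_bits] at h2
      have h3 := hp a
      rw [size_nat] at h3
      simp only [Polynomial.eval_add, Polynomial.eval_mul, Polynomial.eval_ofNat,
        Polynomial.eval_one]
      omega)
  refine this.of_eq fun a => ?_
  exact (bits_iterate _ _).symm

/-! ### The graph -/

/-- `p` is an end position. -/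
def isEndB (φ : CNF) (p : ℕ) : Bool := decide (p = 0) || decide (p = 3 * φ.length + 2)

/-- `u` is a vertex of the graph of the formula. -/
def gvB (φ : CNF) (u : ℕ × ℕ) : Bool :=
  (decide (u.1 < (vs φ).length) && decide (u.2 < 3 * φ.length + 3)) ||
  (decide (u.1 = (vs φ).length) && decide (u.2 < φ.length))

/-- There is an arc from `u` to `v` in the graph of the formula. -/
def gadjB (φ : CNF) (u v : ℕ × ℕ) : Bool :=
  (decide (u.1 < (vs φ).length) && (decide (v.1 = u.1) && (decide (u.2 < 3 * φ.length + 3) &&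
    (decide (v.2 < 3 * φ.length + 3) && (decide (v.2 = u.2 + 1) || decide (u.2 = v.2 + 1)))))) ||
  ((decide (v.1 = u.1 + 1) && (decide (v.1 < (vs φ).length) &&
    (isEndB φ u.2 && isEndB φ v.2))) ||
  ((decide (u.1 < (vs φ).length) && (decide (v.1 = (vs φ).length) && (decide (v.2 < φ.length) &&
    ((litB φ true u.1 v.2 && decide (u.2 = 3 * v.2 + 2)) ||
      (litB φ false u.1 v.2 && decide (u.2 = 3 * v.2 + 3)))))) ||
  (decide (u.1 = (vs φ).length) && (decide (u.2 < φ.length) && (decide (v.1 < (vs φ).length) &&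
    ((litB φ true v.1 u.2 && decide (v.2 = 3 * u.2 + 3)) ||
      (litB φ false v.1 u.2 && decide (v.2 = 3 * u.2 + 2))))))))

/-- `u` is an end of the first chain. -/
def startB (φ : CNF) (u : ℕ × ℕ) : Bool := decide (u.1 = 0) && isEndB φ u.2

/-- `u` is an end of the last chain. -/
def stopB (φ : CNF) (u : ℕ × ℕ) : Bool := decide (u.1 + 1 = (vs φ).length) && isEndB φ u.2

/-- The additional vertex. -/
def zB (φ : CNF) : Nm := (((vs φ).length + 1, 0), false)

/-- The arcs in forward direction. -/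
def fwdB (φ : CNF) (x y : Nm) : Bool :=
  (decide (x.1 = y.1) && (!x.2 && (y.2 && gvB φ x.1))) ||
  ((x.2 && (!y.2 && gadjB φ x.1 y.1)) ||
  ((x.2 && (stopB φ x.1 && decide (y = zB φ))) ||
  (decide (x = zB φ) && (!y.2 && startB φ y.1))))

/-- The arcs. -/
def adjB (φ : CNF) (x y : Nm) : Bool := fwdB φ x y || fwdB φ y x

/-- The number of vertices of the graph of the formula. -/
def nB (φ : CNF) : ℕ := (vs φ).length * (3 * φ.length + 3) + φ.length

/-- The weights. -/
def wtB (φ : CNF) (x y : Nm) : BinRat :=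
  bif fwdB φ x y then
    (bif decide (x = zB φ) then (false, (bn (2 * nB φ - 1), [true])) else
      (true, ([true], [true])))
  else (false, (bn (2 * nB φ + 1), [true]))

/-- The vertices of the graph of the formula. -/
def gvL (φ : CNF) : List (ℕ × ℕ) :=
  ((List.range (vs φ).length).flatMap fun i =>
    (List.range (3 * φ.length + 3)).map fun p => (i, p)) ++
  (List.range φ.length).map fun j => ((vs φ).length, j)

/-- The list of all vertices. -/
def nl (φ : CNF) : List Nm := zB φ :: Frm.dbl (gvL φ)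

/-- The instance of the formula. -/
def inst (φ : CNF) : Inst := mkInst (nl φ) (adjB φ) (wtB φ)

/-! ### Correctness -/

theorem isEndB_iff {φ : CNF} {p : ℕ} : isEndB φ p = true ↔ (toFrm φ).IsEnd p := by
  simp [isEndB, Frm.IsEnd, toFrm]

theorem gvB_iff {φ : CNF} {u : ℕ × ℕ} : gvB φ u = true ↔ (toFrm φ).GV u := by
  simp [gvB, Frm.GV, toFrm]

theorem gadjB_iff {φ : CNF} {u v : ℕ × ℕ} : gadjB φ u v = true ↔ (toFrm φ).GAdj u v := by
  simp only [gadjB, Bool.or_eq_true, Bool.and_eq_true, decide_eq_true_eq, isEndB_iff]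
  exact Iff.rfl

theorem startB_iff {φ : CNF} {u : ℕ × ℕ} : startB φ u = true ↔ (toFrm φ).Start u := by
  have : 0 < (toFrm φ).n := by simp [toFrm, vs]
  simp only [startB, Bool.and_eq_true, decide_eq_true_eq, isEndB_iff, Frm.Start]
  tauto

theorem stopB_iff {φ : CNF} {u : ℕ × ℕ} : stopB φ u = true ↔ (toFrm φ).Stop u := by
  simp only [stopB, Bool.and_eq_true, decide_eq_true_eq, isEndB_iff, Frm.Stop]
  exact Iff.rfl

theorem fwdB_iff {φ : CNF} {x y : Nm} : fwdB φ x y = true ↔ (toFrm φ).Fwd x y := by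
  simp only [fwdB, Bool.or_eq_true, Bool.and_eq_true, decide_eq_true_eq, gvB_iff, gadjB_iff,
    startB_iff, stopB_iff, Bool.not_eq_true', Frm.Fwd]
  exact Iff.rfl

theorem adjB_iff {φ : CNF} {x y : Nm} :
    adjB φ x y = true ↔ (toFrm φ).Fwd x y ∨ (toFrm φ).Fwd y x := by
  simp only [adjB, Bool.or_eq_true, fwdB_iff]

theorem nB_pos (φ : CNF) : 0 < nB φ := by
  unfold nB vs
  rw [List.length_cons]
  have : 0 < ((φ.flatten.map (fun l => l.2)).length + 1) * (3 * φ.length + 3) :=
    Nat.mul_pos (by omega) (by omega)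
  omega

theorem wtB_toRat (φ : CNF) (x y : Nm) :
    (wtB φ x y).toRat = ((toFrm φ).hw x y : ℤ) := by
  have h1 : val [true] = 1 := rfl
  have hN : (toFrm φ).N = nB φ := rfl
  have hz : (toFrm φ).z = zB φ := rfl
  have hpos := nB_pos φ
  unfold wtB Frm.hw
  by_cases hf : (toFrm φ).Fwd x y
  · rw [fwdB_iff.mpr hf, if_pos hf, hz, hN]
    by_cases hx : x = zB φ
    · rw [if_pos hx, decide_eq_true hx]
      simp only [cond_true, BinRat.toRat, val_bn, h1, if_neg Bool.false_ne_true]
      push_cast [Nat.cast_sub (show 1 ≤ 2 * nB φ by omega)]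
      simp
    · rw [if_neg hx, decide_eq_false hx]
      simp [BinRat.toRat, h1]
  · have : fwdB φ x y = false := by
      rw [← Bool.not_eq_true, fwdB_iff]
      exact hf
    rw [this, if_neg hf, hN]
    simp only [cond_false, BinRat.toRat, val_bn, h1, if_neg Bool.false_ne_true]
    push_cast
    simp

theorem Fwd_irrefl {F : Frm} {x : Nm} : ¬ F.Fwd x x := by
  rintro (⟨-, h1, h2, -⟩ | ⟨h1, h2, -⟩ | ⟨h1, -, h2⟩ | ⟨h1, -, h2⟩)
  · rw [h1] at h2; simp at h2
  · rw [h1] at h2; simp at h2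
  · rw [h2] at h1; simp [Frm.z] at h1
  · rw [h1] at h2
    exact Frm.z_not_gv h2.gv

theorem mem_gvL {φ : CNF} {u : ℕ × ℕ} : u ∈ gvL φ ↔ (toFrm φ).GV u := by
  obtain ⟨a, b⟩ := u
  simp only [gvL, List.mem_append, List.mem_flatMap, List.mem_range, List.mem_map,
    Prod.mk.injEq, Frm.GV]
  constructor
  · rintro (⟨a', h1, b', h2, rfl, rfl⟩ | ⟨b', h2, rfl, rfl⟩)
    · exact Or.inl ⟨h1, h2⟩
    · exact Or.inr ⟨rfl, h2⟩
  · rintro (⟨h1, h2⟩ | ⟨h1, h2⟩)
    · exact Or.inl ⟨a, h1, b, h2, rfl, rfl⟩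
    · exact Or.inr ⟨b, h2, h1.symm, rfl⟩

theorem nodup_gvL (φ : CNF) : (gvL φ).Nodup := by
  unfold gvL
  rw [List.nodup_append]
  refine ⟨List.Nodup.product List.nodup_range List.nodup_range, ?_, ?_⟩
  · refine List.Nodup.map ?_ List.nodup_range
    intro a b h
    simpa using h
  · rintro ⟨a, b⟩ h1 ⟨c, d⟩ h2 h3
    simp only [List.mem_flatMap, List.mem_range, List.mem_map, Prod.mk.injEq] at h1 h2 h3
    obtain ⟨a', h4, b', h5, rfl, rfl⟩ := h1
    obtain ⟨d', h6, rfl, rfl⟩ := h2
    omega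

theorem nodup_nl (φ : CNF) : (nl φ).Nodup := by
  unfold nl
  rw [List.nodup_cons]
  refine ⟨?_, Frm.nodup_dbl (nodup_gvL φ)⟩
  rw [Frm.mem_dbl, mem_gvL]
  exact Frm.z_not_gv (F := toFrm φ)

theorem length_gvL (φ : CNF) : (gvL φ).length = nB φ := by
  have h : (gvL φ).toFinset = (toFrm φ).gvF := by
    ext x
    rw [List.mem_toFinset, mem_gvL, Frm.mem_gvF]
  rw [← List.toFinset_card_of_nodup (nodup_gvL φ), h, Frm.card_gvF]
  rfl

theorem length_nl (φ : CNF) : (nl φ).length = 2 * nB φ + 1 := by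
  unfold nl
  rw [List.length_cons, Frm.length_dbl, length_gvL]

theorem mem_nl_of_fwd {φ : CNF} {x y : Nm} (h : (toFrm φ).Fwd x y) : x ∈ nl φ ∧ y ∈ nl φ := by
  have h1 := h.left
  have h2 := h.right
  have : ∀ x, x ∈ (toFrm φ).hvF → x ∈ nl φ := by
    intro x hx
    simp only [Frm.hvF, Finset.mem_insert, Finset.mem_product, Finset.mem_univ, and_true,
      Frm.mem_gvF] at hx
    unfold nl
    rw [List.mem_cons, Frm.mem_dbl, mem_gvL]
    exact hx
  exact ⟨this _ h1, this _ h2⟩

theorem valid_inst (φ : CNF) : Valid (inst φ) := by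
  apply valid_mkInst
  · intro x
    rw [← Bool.not_eq_true, adjB_iff]
    rintro (h | h) <;> exact Fwd_irrefl h
  · intro x y
    have : val [true] = 1 := rfl
    unfold wtB
    cases fwdB φ x y
    · simp [this]
    · cases decide (x = zB φ) <;> simp [this]

theorem symm_inst (φ : CNF) : IsSymmetric (digraph (inst φ)) := by
  apply symm_mkInst
  intro x y h
  rw [adjB_iff] at h ⊢
  exact h.symm

theorem small_inst (φ : CNF) : SmallIntegral (inst φ) := by
  apply small_mkInst
  intro x y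
  refine ⟨(toFrm φ).hw x y, wtB_toRat φ x y, ?_⟩
  rw [length_nl]
  have hN : (toFrm φ).N = nB φ := rfl
  unfold Frm.hw
  rw [hN, abs_le]
  have := nB_pos φ
  split_ifs <;> push_cast <;> constructor <;> omega

/-- The formula is satisfiable iff the weights of its instance are not even-nearly
conservative. -/
theorem sat_iff_not_enc (φ : CNF) :
    Sat φ ↔ ¬ EvenNearlyConservative (digraph (inst φ)) (weight (inst φ)) := by
  rw [sat_iff]
  constructor
  · rintro ⟨σ, hσ⟩ hE
    obtain ⟨k, hk0, v', hk, hinj, hadj, hodd, hneg⟩ :=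
      Frm.complete (F := toFrm φ) (by simp [toFrm, vs]) hσ
    obtain ⟨v, hv, hw⟩ := mkInst_of_cycle (NL := nl φ) (adj := adjB φ) (wt := wtB φ) hk hinj
      (fun i => (mem_nl_of_fwd (hadj i)).1) (fun i => adjB_iff.mpr (Or.inl (hadj i)))
    have h1 := hE k v hv (by
      have e : cycleWeight (weight (inst φ)) k v =
          ((∑ i, (toFrm φ).hw (v' i) (v' (i + 1)) : ℤ) : ℚ) := by
        rw [Int.cast_sum]
        refine hw.trans (Finset.sum_congr rfl fun i _ => wtB_toRat φ _ _)
      rw [e]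
      exact_mod_cast hneg)
    exact (Nat.not_even_iff_odd.mpr hodd) h1
  · intro hE
    unfold EvenNearlyConservative at hE
    push Not at hE
    obtain ⟨k, hk0, v, hv, hneg, hodd⟩ := hE
    obtain ⟨v', hinj, hadj, hw⟩ := cycle_of_mkInst (nodup_nl φ) hv
    refine Frm.sound hv.1 hinj (fun i => adjB_iff.mp (hadj i))
      (Nat.not_even_iff_odd.mp hodd) ?_
    have e : cycleWeight (weight (inst φ)) k v =
        ((∑ i, (toFrm φ).hw (v' i) (v' (i + 1)) : ℤ) : ℚ) := by
      rw [Int.cast_sum]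
      refine hw.trans (Finset.sum_congr rfl fun i _ => wtB_toRat φ _ _)
    rw [e] at hneg
    exact_mod_cast hneg

/-! ### Running time -/

@[fun_prop]
theorem PT.vs' {φ : α → CNF} (hφ : PT m φ) : PT m (fun a => vs (φ a)) := by
  unfold vs
  have h := PT.map' (m := m) (l := fun a => (φ a).flatten)
    (f := fun z : α × (Bool × Vr) => z.2.2) (by fun_prop) (by fun_prop)
  exact PT.cons' (PT.const' _) h

@[fun_prop]
theorem PT.litB' {φ : α → CNF} {b : α → Bool} {i j : α → ℕ} (hφ : PT m φ) (hb : PT m b)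
    (hi : PT m i) (hj : PT m j) : PT m (fun a => litB (φ a) (b a) (i a) (j a)) := by
  unfold litB
  have h1 := PT.mem' (m := m) (l := fun a => (φ a).getD (j a) [])
    (f := fun a => (b a, (vs (φ a)).getD (i a) v0)) (by fun_prop) (by fun_prop)
  have h2 := PT.mem' (m := m) (l := fun a => (vs (φ a)).take (i a))
    (f := fun a => (vs (φ a)).getD (i a) v0) (by fun_prop) (by fun_prop)
  refine (h1.and' h2.not').of_eq fun a => ?_
  congr

@[fun_prop]
theorem PT.isEndB' {φ : α → CNF} {p : α → ℕ} (hφ : PT m φ) (hp : PT m p) :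
    PT m (fun a => isEndB (φ a) (p a)) := by
  unfold isEndB; fun_prop

@[fun_prop]
theorem PT.gvB' {φ : α → CNF} {u : α → ℕ × ℕ} (hφ : PT m φ) (hu : PT m u) :
    PT m (fun a => gvB (φ a) (u a)) := by
  unfold gvB; fun_prop

@[fun_prop]
theorem PT.gadjB' {φ : α → CNF} {u v : α → ℕ × ℕ} (hφ : PT m φ) (hu : PT m u) (hv : PT m v) :
    PT m (fun a => gadjB (φ a) (u a) (v a)) := by
  unfold gadjB; fun_prop

@[fun_prop]
theorem PT.startB' {φ : α → CNF} {u : α → ℕ × ℕ} (hφ : PT m φ) (hu : PT m u) :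
    PT m (fun a => startB (φ a) (u a)) := by
  unfold startB; fun_prop

@[fun_prop]
theorem PT.stopB' {φ : α → CNF} {u : α → ℕ × ℕ} (hφ : PT m φ) (hu : PT m u) :
    PT m (fun a => stopB (φ a) (u a)) := by
  unfold stopB; fun_prop

@[fun_prop]
theorem PT.zB' {φ : α → CNF} (hφ : PT m φ) : PT m (fun a => zB (φ a)) := by
  unfold zB; fun_prop

@[fun_prop]
theorem PT.fwdB' {φ : α → CNF} {u v : α → Nm} (hφ : PT m φ) (hu : PT m u) (hv : PT m v) :
    PT m (fun a => fwdB (φ a) (u a) (v a)) := by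
  unfold fwdB; fun_prop

@[fun_prop]
theorem PT.adjB' {φ : α → CNF} {u v : α → Nm} (hφ : PT m φ) (hu : PT m u) (hv : PT m v) :
    PT m (fun a => adjB (φ a) (u a) (v a)) := by
  unfold adjB; fun_prop

@[fun_prop]
theorem PT.nB' {φ : α → CNF} (hφ : PT m φ) : PT m (fun a => nB (φ a)) := by
  unfold nB; fun_prop

@[fun_prop]
theorem PT.wtB' {φ : α → CNF} {u v : α → Nm} (hφ : PT m φ) (hu : PT m u) (hv : PT m v) :
    PT m (fun a => wtB (φ a) (u a) (v a)) := by
  unfold wtB; fun_prop

@[fun_prop]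
theorem PT.gvL' {φ : α → CNF} (hφ : PT m φ) : PT m (fun a => gvL (φ a)) := by
  unfold gvL
  have h1 := PT.flatMap' (m := m) (l := fun a => List.range (vs (φ a)).length)
    (f := fun z : α × ℕ => (List.range (3 * (φ z.1).length + 3)).map fun p => (z.2, p))
    (by fun_prop)
    (PT.map' (m := m) (l := fun z : α × ℕ => List.range (3 * (φ z.1).length + 3))
      (f := fun w : (α × ℕ) × ℕ => (w.1.2, w.2)) (by fun_prop) (by fun_prop))
  have h2 := PT.map' (m := m) (l := fun a => List.range (φ a).length)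
    (f := fun z : α × ℕ => ((vs (φ z.1)).length, z.2)) (by fun_prop) (by fun_prop)
  exact h1.append' h2

@[fun_prop]
theorem PT.nl' {φ : α → CNF} (hφ : PT m φ) : PT m (fun a => nl (φ a)) := by
  unfold nl Frm.dbl
  have h := PT.flatMap' (m := m) (l := fun a => gvL (φ a))
    (f := fun z : α × (ℕ × ℕ) => [(z.2, false), (z.2, true)]) (by fun_prop) (by fun_prop)
  exact PT.cons' (by fun_prop) h

theorem PT.inst' {φ : α → CNF} (hφ : PT m φ) : PT m (fun a => inst (φ a)) := by
  unfold inst mkInst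
  have h1 := PT.flatMap' (m := m) (l := fun a => List.range (nl (φ a)).length)
    (f := fun z : α × ℕ => (List.range (nl (φ z.1)).length).map fun p => (z.2, p))
    (by fun_prop)
    (PT.map' (m := m) (l := fun z : α × ℕ => List.range (nl (φ z.1)).length)
      (f := fun w : (α × ℕ) × ℕ => (w.1.2, w.2)) (by fun_prop) (by fun_prop))
  have h2 := PT.filter' (m := m) (f := fun z : α × (ℕ × ℕ) =>
    adjB (φ z.1) ((nl (φ z.1)).getD z.2.1 d0) ((nl (φ z.1)).getD z.2.2 d0)) h1 (by fun_prop)
  have h3 := PT.map' (m := m) (f := fun z : α × (ℕ × ℕ) =>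
    (z.2, wtB (φ z.1) ((nl (φ z.1)).getD z.2.1 d0) ((nl (φ z.1)).getD z.2.2 d0))) h2
    (by fun_prop)
  exact PT.prodMk (by fun_prop) h3

end Pool.Agent.H80.ENC
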