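import Mathlib
import Pool.Agent.H80.ENC.Reduction
import Pool.Agent.H80.ENC.Pair
import Pool.Agent.H64.Cook.CookLevin

/-!
# Hardness
-/

namespace Pool.Agent.H80.ENC

open Pool.Agent.PPS Pool.Agent.H64.Cook

/-- If some polynomial-time algorithm recognises even-nearly conservative weights on all
symmetric digraphs with small integral weights, then `P = NP`. -/
theorem P_eq_NP_of_alg {L : Set (List Bool)} (hL : L ∈ P)
    (h : ∀ I : Inst, Valid I → IsSymmetric (digraph I) → SmallIntegral I →
      (code I ∈ L ↔ EvenNearlyConservative (digraph I) (weight I))) : P = NP := by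
  classical
  refine Set.Subset.antisymm P_subset_NP ?_
  intro A hA
  obtain ⟨f, hf, hfA⟩ := cookLevin hA
  rw [mem_P_iff] at hL ⊢
  have h1 : PT true (fun x => !decide (code (inst (f x)) ∈ L)) :=
    (hL.comp (PT.code' (PT.inst' hf))).not'
  refine h1.of_eq fun x => ?_
  have h2 : x ∈ A ↔ ¬ code (inst (f x)) ∈ L := by
    rw [hfA, sat_iff_not_enc, h _ (valid_inst _) (symm_inst _) (small_inst _)]
  by_cases hx : x ∈ A
  · rw [decide_eq_true hx, decide_eq_false (h2.mp hx)]; rfl
  · have : code (inst (f x)) ∈ L := by
      by_contra hc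
      exact hx (h2.mpr hc)
    rw [decide_eq_false hx, decide_eq_true this]; rfl

end Pool.Agent.H80.ENC
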