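import Mathlib
import Pool.Agent.H80.ENC.Arith
import Pool.Agent.H80.ENC.Pair
import Pool.Agent.H80.ENC.Defs

/-!
# Checking an odd negative cycle in polynomial time
-/

namespace Pool.Agent.H80.ENC

open Pool.Agent.PPS Pool.Agent.H64.Cook

variable {m : Bool} {α : Type} [Rep α]

/-! ### Decoding -/

/-- Decoding of a weighted arc. -/
def decArc (e : D) : (ℕ × ℕ) × BinRat :=
  ((toNat (hd (hd e)), toNat (tl (hd e))), (toBit (hd (tl e)),
    (toWord (hd (tl (tl e))), toWord (tl (tl (tl e))))))

/-- Decoding of an instance. -/
def decInst (x : List Bool) : Inst :=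
  (toNat (hd (decodeD x)), (spine (tl (decodeD x))).map decArc)

theorem decArc_rep (a : (ℕ × ℕ) × BinRat) : decArc (Rep.rep a) = a := by
  obtain ⟨⟨u, v⟩, s, n, d⟩ := a
  show ((toNat (Rep.rep u), toNat (Rep.rep v)), (toBit (Rep.rep s),
    (toWord (Rep.rep n), toWord (Rep.rep d)))) = _
  rw [toNat_rep, toNat_rep, toBit_rep, toWord_rep, toWord_rep]

theorem decInst_code (I : Inst) : decInst (code I) = I := by
  obtain ⟨n, l⟩ := I
  unfold decInst
  rw [decodeD_codeT]
  show (toNat (Rep.rep n), (spine (listTree l)).map decArc) = _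
  rw [toNat_rep, spine_listTree, List.map_map]
  have : (decArc ∘ Rep.rep) = id := funext decArc_rep
  rw [this, List.map_id]

/-- Decoding of a list of numbers. -/
def decNats (x : List Bool) : List ℕ := (spine (decodeD x)).map toNat

theorem decNats_code (l : List ℕ) : decNats (code l) = l := by
  unfold decNats
  rw [decodeD_codeT]
  show (spine (listTree l)).map toNat = l
  rw [spine_listTree, List.map_map]
  have : (toNat ∘ Rep.rep) = id := funext toNat_rep
  rw [this, List.map_id]

@[fun_prop]
theorem PT.decInst' {x : α → List Bool} (hx : PT m x) : PT m (fun a => decInst (x a)) := by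
  unfold decInst
  have h := PT.map' (m := m) (l := fun a => spine (tl (decodeD (x a))))
    (f := fun z : α × D => decArc z.2) (by fun_prop) (by unfold decArc; fun_prop)
  exact PT.prodMk (by fun_prop) h

@[fun_prop]
theorem PT.decNats' {x : α → List Bool} (hx : PT m x) : PT m (fun a => decNats (x a)) := by
  unfold decNats
  exact PT.map' (m := m) (l := fun a => spine (decodeD (x a)))
    (f := fun z : α × D => toNat z.2) (by fun_prop) (by fun_prop)

/-! ### Sums of rational numbers -/

/-- One step of the summation: `(p, (q, d))` stands for `(p - q) / d`. -/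
def accStep (s : List Bool × (List Bool × List Bool)) (w : BinRat) :
    List Bool × (List Bool × List Bool) :=
  (addB (mulB w.2.2 s.1) (bif w.1 then [] else mulB w.2.1 s.2.2),
    (addB (mulB w.2.2 s.2.1) (bif w.1 then mulB w.2.1 s.2.2 else []), mulB w.2.2 s.2.2))

/-- The sum of a list of rational numbers. -/
def acc (ws : List BinRat) : List Bool × (List Bool × List Bool) :=
  ws.foldl (fun s w => accStep s w) ([], ([], [true]))

/-- The sum is negative. -/
def negB (ws : List BinRat) : Bool := ltB (acc ws).1 (acc ws).2.1

theorem acc_append (ws : List BinRat) (w : BinRat) : acc (ws ++ [w]) = accStep (acc ws) w := by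
  simp [acc, List.foldl_append]

theorem acc_spec (ws : List BinRat) (h : ∀ w ∈ ws, val w.2.2 ≠ 0) :
    0 < val (acc ws).2.2 ∧
    (ws.map BinRat.toRat).sum * (val (acc ws).2.2 : ℚ) =
      (val (acc ws).1 : ℚ) - (val (acc ws).2.1 : ℚ) := by
  induction ws using List.reverseRecOn with
  | nil =>
    have e : acc [] = ([], ([], [true])) := rfl
    rw [e]
    simp [val]
  | append_singleton ws w ih =>
    obtain ⟨h1, h2⟩ := ih (fun w hw => h w (by simp [hw]))
    have h3 : val w.2.2 ≠ 0 := h w (by simp)
    rw [acc_append]
    unfold accStep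
    simp only [val_mulB, val_addB, List.map_append, List.sum_append, List.map_cons, List.map_nil,
      List.sum_cons, List.sum_nil, add_zero]
    refine ⟨Nat.mul_pos (Nat.pos_of_ne_zero h3) h1, ?_⟩
    have h4 : (val w.2.2 : ℚ) ≠ 0 := by exact_mod_cast h3
    have h5 : BinRat.toRat w * (val w.2.2 : ℚ) = (if w.1 then -1 else 1) * (val w.2.1 : ℚ) := by
      unfold BinRat.toRat
      field_simp
    have h6 : ((ws.map BinRat.toRat).sum + w.toRat) *
        ((val w.2.2 * val (acc ws).2.2 : ℕ) : ℚ) =
        (val w.2.2 : ℚ) * ((ws.map BinRat.toRat).sum * (val (acc ws).2.2 : ℚ)) +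
        (BinRat.toRat w * (val w.2.2 : ℚ)) * (val (acc ws).2.2 : ℚ) := by
      push_cast; ring
    rw [h6, h2, h5]
    cases w.1
    · simp [val, val_mulB]; ring
    · simp [val, val_mulB]; ring

theorem negB_eq (ws : List BinRat) (h : ∀ w ∈ ws, val w.2.2 ≠ 0) :
    negB ws = true ↔ (ws.map BinRat.toRat).sum < 0 := by
  obtain ⟨h1, h2⟩ := acc_spec ws h
  unfold negB
  rw [ltB_eq, decide_eq_true_eq]
  have h1' : (0 : ℚ) < (val (acc ws).2.2 : ℚ) := by exact_mod_cast h1
  constructor
  · intro h3
    have h3' : (val (acc ws).1 : ℚ) < (val (acc ws).2.1 : ℚ) := by exact_mod_cast h3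
    have : (ws.map BinRat.toRat).sum * (val (acc ws).2.2 : ℚ) < 0 := by rw [h2]; linarith
    by_contra h4
    push Not at h4
    have := mul_nonneg h4 h1'.le
    linarith
  · intro h3
    have : (ws.map BinRat.toRat).sum * (val (acc ws).2.2 : ℚ) < 0 :=
      mul_neg_of_neg_of_pos h3 h1'
    rw [h2] at this
    have : (val (acc ws).1 : ℚ) < (val (acc ws).2.1 : ℚ) := by linarith
    exact_mod_cast this

theorem size_binRat_ge (w : BinRat) : 2 * (w.2.1.length + w.2.2.length) + 1 ≤ size w := by
  obtain ⟨s, n, d⟩ := w
  rw [size_pair, size_pair]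
  have h1 := two_length_le_size n
  have h2 := two_length_le_size d
  simp only
  omega

theorem length_acc (ws : List BinRat) :
    (acc ws).1.length ≤ size ws ∧ (acc ws).2.1.length ≤ size ws ∧
      (acc ws).2.2.length ≤ size ws := by
  induction ws using List.reverseRecOn with
  | nil =>
    have e : acc [] = ([], ([], [true])) := rfl
    rw [e, size_nil]
    simp
  | append_singleton ws w ih =>
    obtain ⟨h1, h2, h3⟩ := ih
    rw [acc_append]
    unfold accStep
    simp only [length_addB]
    have a1 := length_mulB w.2.2 (acc ws).1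
    have a2 := length_mulB w.2.2 (acc ws).2.1
    have a3 := length_mulB w.2.2 (acc ws).2.2
    have a4 := length_mulB w.2.1 (acc ws).2.2
    have h := size_append ws [w]
    rw [size_cons, size_nil] at h
    have h5 := size_binRat_ge w
    cases w.1 <;> simp only [cond_true, cond_false, List.length_nil] <;> omega

theorem PT.acc' {ws : α → List BinRat} (hws : PT m ws) : PT m (fun a => acc (ws a)) := by
  have key : PT m (fun ws : List BinRat => acc ws) := by
    have hst : PT m (fun z : List BinRat × ((List Bool × (List Bool × List Bool)) × BinRat) =>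
        accStep z.2.1 z.2.2) := by
      unfold accStep
      fun_prop
    have h1 := PT.foldl (m := m) (α := List BinRat)
      (l := fun p => p)
      (s := fun z : List BinRat × ((List Bool × (List Bool × List Bool)) × BinRat) =>
        accStep z.2.1 z.2.2)
      (ini := fun _ => (([] : List Bool), (([] : List Bool), [true])))
      (by fun_prop) (by fun_prop) hst (12 * Polynomial.X + 5) (by
        intro a k
        obtain ⟨h1, h2, h3⟩ := length_acc (a.take k)
        have h4 := size_take_le a k
        have h5 := size_words_le (acc (a.take k)).1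
        have h6 := size_words_le (acc (a.take k)).2.1
        have h7 := size_words_le (acc (a.take k)).2.2
        have e : size (acc (a.take k)) = size (acc (a.take k)).1 +
            (size (acc (a.take k)).2.1 + size (acc (a.take k)).2.2 + 1) + 1 := by
          rw [← size_pair, ← size_pair]
        show size (acc (a.take k)) ≤ _
        rw [e]
        simp only [Polynomial.eval_add, Polynomial.eval_mul, Polynomial.eval_X,
          Polynomial.eval_ofNat]
        omega)
    exact h1
  exact key.comp' hws

attribute [irreducible] acc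

@[fun_prop]
theorem PT.acc'' {ws : α → List BinRat} (hws : PT m ws) : PT m (fun a => acc (ws a)) :=
  PT.acc' hws

@[fun_prop]
theorem PT.negB' {ws : α → List BinRat} (hws : PT m ws) : PT m (fun a => negB (ws a)) := by
  unfold negB; fun_prop

/-! ### The check -/

/-- The cyclic successor of the index `i`. -/
def nxt (l : List ℕ) (i : ℕ) : ℕ := bif decide (i + 1 < l.length) then i + 1 else 0

/-- The arcs of the closed walk with vertices `l`. -/
def steps (l : List ℕ) : List (ℕ × ℕ) :=
  (List.range l.length).map fun i => (l.getD i 0, l.getD (nxt l i) 0)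

/-- The weight of the arc `e`. -/
def wOf (I : Inst) (e : ℕ × ℕ) : BinRat :=
  ((I.2.filter (fun a => decide (a.1 = e))).headD (e, (false, ([], [])))).2

/-- The vertices are distinct. -/
def distinctB (l : List ℕ) : Bool :=
  (List.range l.length).all fun i => (List.range l.length).all fun j =>
    decide (i = j) || !decide (l.getD i 0 = l.getD j 0)

/-- All steps are arcs. -/
def arcsB (I : Inst) (l : List ℕ) : Bool :=
  (steps l).all fun e => I.2.any fun a => decide (a.1 = e)

/-- `l` is the list of vertices of an odd negative cycle. -/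
def chk (I : Inst) (l : List ℕ) : Bool :=
  decide (2 ≤ l.length) && (oddB l.length && (distinctB l && (arcsB I l &&
    negB ((steps l).map (fun e => wOf I e)))))

@[fun_prop]
theorem PT.nxt' {l : α → List ℕ} {i : α → ℕ} (hl : PT m l) (hi : PT m i) :
    PT m (fun a => nxt (l a) (i a)) := by
  unfold nxt; fun_prop

@[fun_prop]
theorem PT.steps' {l : α → List ℕ} (hl : PT m l) : PT m (fun a => steps (l a)) := by
  unfold steps
  exact PT.map' (m := m) (l := fun a => List.range (l a).length)
    (f := fun z : α × ℕ => ((l z.1).getD z.2 0, (l z.1).getD (nxt (l z.1) z.2) 0))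
    (by fun_prop) (by fun_prop)

@[fun_prop]
theorem PT.wOf' {I : α → Inst} {e : α → ℕ × ℕ} (hI : PT m I) (he : PT m e) :
    PT m (fun a => wOf (I a) (e a)) := by
  unfold wOf
  have h := PT.filter' (m := m) (l := fun a => (I a).2)
    (f := fun z : α × ((ℕ × ℕ) × BinRat) => decide (z.2.1 = e z.1)) (by fun_prop) (by fun_prop)
  exact (PT.headD' h (PT.prodMk he (PT.const' _))).snd'

@[fun_prop]
theorem PT.distinctB' {l : α → List ℕ} (hl : PT m l) : PT m (fun a => distinctB (l a)) := by
  unfold distinctB
  exact PT.all' (m := m) (l := fun a => List.range (l a).length)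
    (f := fun z : α × ℕ => (List.range (l z.1).length).all fun j =>
      decide (z.2 = j) || !decide ((l z.1).getD z.2 0 = (l z.1).getD j 0))
    (by fun_prop)
    (PT.all' (m := m) (l := fun z : α × ℕ => List.range (l z.1).length)
      (f := fun w : (α × ℕ) × ℕ =>
        decide (w.1.2 = w.2) || !decide ((l w.1.1).getD w.1.2 0 = (l w.1.1).getD w.2 0))
      (by fun_prop) (by fun_prop))

@[fun_prop]
theorem PT.arcsB' {I : α → Inst} {l : α → List ℕ} (hI : PT m I) (hl : PT m l) :
    PT m (fun a => arcsB (I a) (l a)) := by
  unfold arcsB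
  exact PT.all' (m := m) (l := fun a => steps (l a))
    (f := fun z : α × (ℕ × ℕ) => (I z.1).2.any fun a => decide (a.1 = z.2))
    (by fun_prop)
    (PT.any' (m := m) (l := fun z : α × (ℕ × ℕ) => (I z.1).2)
      (f := fun w : (α × (ℕ × ℕ)) × ((ℕ × ℕ) × BinRat) => decide (w.2.1 = w.1.2))
      (by fun_prop) (by fun_prop))

@[fun_prop]
theorem PT.chk' {I : α → Inst} {l : α → List ℕ} (hI : PT m I) (hl : PT m l) :
    PT m (fun a => chk (I a) (l a)) := by
  unfold chk
  have h := PT.map' (m := m) (l := fun a => steps (l a))
    (f := fun z : α × (ℕ × ℕ) => wOf (I z.1) z.2) (by fun_prop) (by fun_prop)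
  exact PT.and' (by fun_prop) (PT.and' (by fun_prop) (PT.and' (by fun_prop)
    (PT.and' (by fun_prop) (PT.negB' h))))

end Pool.Agent.H80.ENC
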