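import Mathlib
import Pool.Agent.H80.ENC.Member
import Pool.Agent.H80.ENC.Hard

/-!
# Recognition of even-nearly conservative weights is in `coNP`
-/

namespace Pool.Agent.H80.ENC

open Pool.Agent.PPS Pool.Agent.H64.Cook

theorem sum_zmod {k : ℕ} [NeZero k] (f : ZMod k → ℚ) :
    ∑ i, f i = ((List.range k).map (fun j : ℕ => f (j : ZMod k))).sum := by
  have h1 : ∑ i, f i = ∑ j ∈ Finset.range k, f (j : ZMod k) := by
    refine Finset.sum_nbij' (fun i => i.val) (fun j => (j : ZMod k)) ?_ ?_ ?_ ?_ ?_
    · intro i _; exact Finset.mem_range.mpr (ZMod.val_lt i)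
    · intro j _; exact Finset.mem_univ _
    · intro i _; simp
    · intro j hj; exact ZMod.val_natCast_of_lt (Finset.mem_range.mp hj)
    · intro i _; simp
  rw [h1, Finset.sum_eq_multiset_sum]
  rfl

theorem val_add_one {k : ℕ} [NeZero k] (hk : 2 ≤ k) (l : List ℕ) (hl : l.length = k)
    (i : ZMod k) : (i + 1).val = nxt l i.val := by
  have hf : Fact (1 < k) := ⟨by omega⟩
  have hi := ZMod.val_lt i
  rw [ZMod.val_add, ZMod.val_one]
  unfold nxt
  by_cases h : i.val + 1 < k
  · rw [decide_eq_true (by omega), Nat.mod_eq_of_lt h]; rfl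
  · rw [decide_eq_false (by omega), show i.val + 1 = k by omega, Nat.mod_self]; rfl

theorem lookup_eq {β : Type} (L : List ((ℕ × ℕ) × β)) (e : ℕ × ℕ) :
    L.lookup e = ((L.filter (fun a => decide (a.1 = e))).head?).map Prod.snd := by
  induction L with
  | nil => rfl
  | cons a L ih =>
    obtain ⟨b, q⟩ := a
    rw [List.lookup_cons, List.filter_cons]
    by_cases h : b = e
    · subst h
      simp
    · have h1 : (e == b) = false := by
        rw [beq_eq_false_iff_ne]
        exact fun h' => h h'.symm
      rw [h1]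
      simp only [decide_eq_true_eq, h, if_false]
      exact ih

theorem wOf_spec {I : Inst} {e : ℕ × ℕ} (h : ∃ a ∈ I.2, a.1 = e) :
    (e, wOf I e) ∈ I.2 ∧ I.2.lookup e = some (wOf I e) := by
  obtain ⟨a, ha, rfl⟩ := h
  have h1 : I.2.filter (fun b => decide (b.1 = a.1)) ≠ [] := by
    intro h
    have : a ∈ I.2.filter (fun b => decide (b.1 = a.1)) := by
      rw [List.mem_filter]; exact ⟨ha, by simp⟩
    rw [h] at this
    simp at this
  obtain ⟨b, t, hb⟩ := List.exists_cons_of_ne_nil h1
  have hb2 : b ∈ I.2.filter (fun b => decide (b.1 = a.1)) := by rw [hb]; simp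
  rw [List.mem_filter] at hb2
  have hb3 : b.1 = a.1 := by simpa using hb2.2
  have h2 : wOf I a.1 = b.2 := by
    unfold wOf
    rw [hb]
    rfl
  rw [h2]
  constructor
  · rw [← hb3]
    exact hb2.1
  · rw [lookup_eq, hb]
    rfl

theorem weight_eq {I : Inst} {u v : Fin I.1} (h : (digraph I).Adj u v) :
    weight I u v = (wOf I (u, v)).toRat := by
  obtain ⟨q, hq⟩ := h
  unfold weight
  rw [(wOf_spec ⟨_, hq, rfl⟩).2]
  rfl

theorem not_enc_of_chk {I : Inst} (hI : Valid I) {l : List ℕ} (h : chk I l = true) :
    ¬ EvenNearlyConservative (digraph I) (weight I) := by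
  unfold chk at h
  simp only [Bool.and_eq_true, decide_eq_true_eq] at h
  obtain ⟨h1, h2, h3, h4, h5⟩ := h
  rw [oddB_eq, decide_eq_true_eq] at h2
  have hne : NeZero l.length := ⟨by omega⟩
  have h4' : ∀ i < l.length, ∃ a ∈ I.2, a.1 = (l.getD i 0, l.getD (nxt l i) 0) := by
    intro i hi
    unfold arcsB steps at h4
    rw [List.all_eq_true] at h4
    have := h4 (l.getD i 0, l.getD (nxt l i) 0) (List.mem_map.mpr ⟨i, List.mem_range.mpr hi, rfl⟩)
    rw [List.any_eq_true] at this
    obtain ⟨a, ha, h⟩ := this
    exact ⟨a, ha, by simpa using h⟩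
  have hlt : ∀ i < l.length, l.getD i 0 < I.1 := by
    intro i hi
    obtain ⟨a, ha, h⟩ := h4' i hi
    have := (hI.lt a ha).1
    rw [h] at this
    exact this
  let v : ZMod l.length → Fin I.1 := fun i => ⟨l.getD i.val 0, hlt _ (ZMod.val_lt i)⟩
  have hadj : ∀ i, (digraph I).Adj (v i) (v (i + 1)) := by
    intro i
    obtain ⟨⟨e, q⟩, ha, h⟩ := h4' i.val (ZMod.val_lt i)
    refine ⟨q, ?_⟩
    simp only [v]
    rw [val_add_one h1 l rfl i]
    simp only at h
    rw [← h]
    exact ha
  intro hE
  have hcyc : IsCycle (digraph I) l.length v := by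
    refine ⟨h1, ?_, hadj⟩
    intro i j hij
    unfold distinctB at h3
    simp only [List.all_eq_true, List.mem_range, Bool.or_eq_true, decide_eq_true_eq,
      Bool.not_eq_true', decide_eq_false_iff_not] at h3
    rcases h3 i.val (ZMod.val_lt i) j.val (ZMod.val_lt j) with h | h
    · exact ZMod.val_injective _ h
    · exact absurd (congrArg Fin.val hij) h
  have hden : ∀ w ∈ (steps l).map (fun e => wOf I e), val w.2.2 ≠ 0 := by
    intro w hw
    obtain ⟨e, he, rfl⟩ := List.mem_map.mp hw
    unfold steps at he
    obtain ⟨i, hi, rfl⟩ := List.mem_map.mp he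
    have := hI.den _ (wOf_spec (h4' i (List.mem_range.mp hi))).1
    exact this
  rw [negB_eq _ hden] at h5
  have hev := hE l.length v hcyc (by
    unfold cycleWeight
    rw [sum_zmod]
    convert h5 using 1
    unfold steps
    rw [List.map_map, List.map_map]
    congr 1
    apply List.map_congr_left
    intro i hi
    have hi' := List.mem_range.mp hi
    have hv : ((i : ZMod l.length)).val = i := ZMod.val_natCast_of_lt hi'
    rw [weight_eq (hadj _)]
    simp only [v, Function.comp_apply]
    rw [val_add_one h1 l rfl, hv])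
  rw [Nat.even_iff] at hev
  omega

theorem exists_chk {I : Inst} (hI : Valid I)
    (h : ¬ EvenNearlyConservative (digraph I) (weight I)) :
    ∃ l : List ℕ, (∀ x ∈ l, x < I.1) ∧ l.length ≤ I.1 ∧ chk I l = true := by
  unfold EvenNearlyConservative at h
  push Not at h
  obtain ⟨k, hk0, v, ⟨hk, hinj, hadj⟩, hneg, hodd⟩ := h
  have hodd' : k % 2 = 1 := by
    rw [Nat.even_iff] at hodd; omega
  set l : List ℕ := (List.range k).map (fun i : ℕ => ((v (i : ZMod k)) : ℕ)) with hl
  have hlen : l.length = k := by simp [hl]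
  have hget : ∀ i < k, l.getD i 0 = (v (i : ZMod k) : ℕ) := by
    intro i hi
    rw [List.getD_eq_getElem _ _ (by omega)]
    simp [hl]
  have hnxt : ∀ i < k, l.getD (nxt l i) 0 = (v ((i : ZMod k) + 1) : ℕ) := by
    intro i hi
    have h1 := val_add_one hk l hlen (i : ZMod k)
    rw [ZMod.val_natCast_of_lt hi] at h1
    rw [← h1, hget _ (ZMod.val_lt _)]
    simp
  have hstep : steps l = (List.range k).map
      (fun i : ℕ => ((v (i : ZMod k) : ℕ), (v ((i : ZMod k) + 1) : ℕ))) := by
    unfold steps
    rw [hlen]
    apply List.map_congr_left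
    intro i hi
    have hi' := List.mem_range.mp hi
    rw [hget i hi', hnxt i hi']
  have harc : ∀ i : ZMod k, ∃ a ∈ I.2, a.1 = ((v i : ℕ), (v (i + 1) : ℕ)) := by
    intro i
    obtain ⟨q, hq⟩ := hadj i
    exact ⟨_, hq, rfl⟩
  refine ⟨l, ?_, ?_, ?_⟩
  · intro x hx
    obtain ⟨i, -, rfl⟩ := List.mem_map.mp hx
    exact (v _).2
  · rw [hlen]
    have := Fintype.card_le_of_injective v hinj
    rwa [ZMod.card, Fintype.card_fin] at this
  · unfold chk
    simp only [Bool.and_eq_true, decide_eq_true_eq]
    refine ⟨by omega, ?_, ?_, ?_, ?_⟩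
    · rw [oddB_eq, hlen, decide_eq_true_eq]; exact hodd'
    · unfold distinctB
      simp only [List.all_eq_true, List.mem_range, Bool.or_eq_true, decide_eq_true_eq,
        Bool.not_eq_true', decide_eq_false_iff_not]
      intro i hi j hj
      rw [hlen] at hi hj
      rw [hget i hi, hget j hj]
      by_cases hij : i = j
      · exact Or.inl hij
      · refine Or.inr fun h => hij ?_
        have := hinj (Fin.ext h)
        have := congrArg ZMod.val this
        rwa [ZMod.val_natCast_of_lt hi, ZMod.val_natCast_of_lt hj] at this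
    · unfold arcsB
      rw [hstep, List.all_eq_true]
      intro e he
      obtain ⟨i, -, rfl⟩ := List.mem_map.mp he
      rw [List.any_eq_true]
      obtain ⟨a, ha, h⟩ := harc (i : ZMod k)
      exact ⟨a, ha, by simpa using h⟩
    · have hden : ∀ w ∈ (steps l).map (fun e => wOf I e), val w.2.2 ≠ 0 := by
        intro w hw
        obtain ⟨e, he, rfl⟩ := List.mem_map.mp hw
        rw [hstep] at he
        obtain ⟨i, hi, rfl⟩ := List.mem_map.mp he
        have := hI.den _ (wOf_spec (harc (i : ZMod k))).1
        exact this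
      rw [negB_eq _ hden]
      unfold cycleWeight at hneg
      rw [sum_zmod] at hneg
      convert hneg using 1
      rw [hstep, List.map_map, List.map_map]
      congr 1
      apply List.map_congr_left
      intro i hi
      rw [weight_eq (hadj _)]
      rfl

theorem size_list_lt {l : List ℕ} {n : ℕ} (h : ∀ x ∈ l, x < n) (hl : l.length ≤ n) :
    size l ≤ n * (2 * n + 2) + 1 := by
  have h1 : ∀ b ∈ l, size b ≤ 2 * n + 1 := by
    intro b hb
    rw [size_nat]
    have := h b hb
    omega
  refine (size_list_le h1).trans ?_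
  have e : 2 * n + 1 + 1 = 2 * n + 2 := by omega
  rw [e]
  have := Nat.mul_le_mul_right (2 * n + 2) hl
  omega

/-- The language of the codes of instances together with padded odd negative cycles. -/
def V : Set (List Bool) :=
  {u | chk (decInst (unpair u).1) (decNats (unpad (unpair u).2)) = true}

theorem V_mem_P : V ∈ P := by
  classical
  rw [mem_P_iff]
  have h : PT true (fun u : List Bool =>
    chk (decInst (unpair u).1) (decNats (unpad (unpair u).2))) := by fun_prop
  refine h.of_eq fun u => ?_
  by_cases hu : u ∈ V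
  · rw [decide_eq_true hu]; exact hu.symm
  · rw [decide_eq_false hu]
    symm
    rw [← Bool.not_eq_true]
    exact hu

/-- The length of the padded certificates. -/
noncomputable def q : Polynomial ℕ := Polynomial.X * (2 * Polynomial.X + 2) + 2

/-- The words with a certificate. -/
def Bad : Set (List Bool) := {x | ∃ y : List Bool, y.length = q.eval x.length ∧ pairW x y ∈ V}

theorem Bad_mem_NP : Bad ∈ NP := ⟨V, V_mem_P, q, fun _ => Iff.rfl⟩

theorem mem_Bad_iff {I : Inst} (hI : Valid I) :
    code I ∈ Bad ↔ ¬ EvenNearlyConservative (digraph I) (weight I) := by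
  constructor
  · rintro ⟨y, -, hy⟩
    have h : chk (decInst (unpair (pairW (code I) y)).1)
      (decNats (unpad (unpair (pairW (code I) y)).2)) = true := hy
    rw [unpair_pairW, decInst_code] at h
    exact not_enc_of_chk hI h
  · intro h
    obtain ⟨l, h1, h2, h3⟩ := exists_chk hI h
    have hsz : (code l).length < q.eval (code I).length := by
      have h4 : size l ≤ I.1 * (2 * I.1 + 2) + 1 := size_list_lt h1 h2
      have h5 : I.1 ≤ (code I).length := by
        have : size I = size I.1 + size I.2 + 1 := size_pair I.1 I.2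
        rw [size_nat] at this
        have h6 : (code I).length = size I := rfl
        omega
      have h6 : (code l).length = size l := rfl
      have h7 : I.1 * (2 * I.1 + 2) ≤ (code I).length * (2 * (code I).length + 2) :=
        Nat.mul_le_mul h5 (by omega)
      unfold q
      simp only [Polynomial.eval_add, Polynomial.eval_mul, Polynomial.eval_X,
        Polynomial.eval_ofNat]
      omega
    refine ⟨padTo (q.eval (code I).length) (code l), length_padTo hsz, ?_⟩
    show chk (decInst (unpair (pairW (code I) (padTo _ (code l)))).1)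
      (decNats (unpad (unpair (pairW (code I) (padTo _ (code l)))).2)) = true
    rw [unpair_pairW, decInst_code, unpad_padTo, decNats_code]
    exact h3

theorem compl_mem_P {L : Set (List Bool)} (hL : L ∈ P) : Lᶜ ∈ P := by
  classical
  rw [mem_P_iff] at hL ⊢
  refine hL.not'.of_eq fun x => ?_
  by_cases hx : x ∈ L <;> simp [hx]

/-- If `P = NP`, then some polynomial-time algorithm recognises even-nearly conservative
weights. -/
theorem exists_alg_of_P_eq_NP (h : P = NP) :
    ∃ L ∈ P, ∀ I : Inst, Valid I →
      (code I ∈ L ↔ EvenNearlyConservative (digraph I) (weight I)) := by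
  have h1 : Bad ∈ P := by rw [h]; exact Bad_mem_NP
  refine ⟨Badᶜ, compl_mem_P h1, fun I hI => ?_⟩
  rw [Set.mem_compl_iff, mem_Bad_iff hI, not_not]

end Pool.Agent.H80.ENC
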